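import Pool.Agent.T6.H22.DI.Rel
import Pool.Agent.H977R3.CM.Defs

/-!
# The fields of a tower are pairwise independent
-/

set_option autoImplicit false

namespace Pool.Agent.T6.H22.DI

open NumberField Module Pool.Agent.T6.H22.IT Pool.Agent.H977R3.CM

variable {ι : Type} {E : ι → Type} [∀ i, Field (E i)] [∀ i, NumberField (E i)]
  [∀ i, IsCMField (E i)]

/-- An automorphism that is the complex conjugation on one embedding and fixes the embeddings of the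
other fields. -/
theorem exists_flip [Fintype ι] {i : ι} {T : Set ι} {k ℓ : ℕ} (hℓ : ℓ.Prime) (hi : IsIsolated ℓ k (E i))
    (hT : ∀ j ∈ T, IsThin ℓ k (E j)) (ψ : E i →+* ℂ) :
    ∃ τ : ℂ ≃+* ℂ, cmp τ ψ = ComplexEmbedding.conjugate ψ ∧
      ∀ j ∈ T, ∀ φ : E j →+* ℂ, cmp τ φ = φ := by
  obtain ⟨σ, M, O, hM, ⟨φ₁, hφ₁⟩, h1, h2, h3, h4, h5, h6⟩ := exists_sigma E i T hℓ hi hT
  have h7 : ∀ φ ∈ O, cmp (σ ^ (2 ^ k * M)) φ = ComplexEmbedding.conjugate φ := by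
    obtain ⟨c, rfl⟩ := hM
    intro φ hφ
    have h8 : 2 ^ k * (2 * c + 1) = 2 ^ k + 2 ^ (k + 1) * c := by ring
    rw [h8, pow_add, cmp_mul, (h3 φ hφ _).2 (dvd_mul_right _ _), h4 φ hφ]
  obtain ⟨ρ, rfl⟩ := exists_conj φ₁ ψ
  refine ⟨ρ * σ ^ (2 ^ k * M) * ρ⁻¹, ?_, ?_⟩
  · rw [cmp_mul, ← cmp_mul ρ⁻¹, inv_mul_cancel, cmp_one, cmp_mul, h7 φ₁ hφ₁, cmp_conj]
  · intro j hj φ
    rw [cmp_mul, cmp_mul, h6 j hj, ← cmp_mul, mul_inv_cancel, cmp_one]

/-- The fields of a tower are pairwise independent. -/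
theorem indep_of_tower [Fintype ι] {S : Set ι} (hS : IsIsolatedTower E S) :
    ∀ i ∈ S, ∀ i' ∈ S, i ≠ i' → ∀ (φ : E i →+* ℂ) (ψ : E i' →+* ℂ), ∃ σ : ℂ ≃+* ℂ,
      cmp σ φ = φ ∧ cmp σ ψ = ComplexEmbedding.conjugate ψ := by
  induction hS with
  | empty => exact fun i hi => absurd hi (Set.notMem_empty i)
  | insert i S ℓ k hS hℓ hiso hthin ih =>
    have key : ∀ j ∈ S, ∀ (φ : E j →+* ℂ) (ψ : E i →+* ℂ), ∃ σ : ℂ ≃+* ℂ,
        cmp σ φ = φ ∧ cmp σ ψ = ComplexEmbedding.conjugate ψ := by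
      intro j hj φ ψ
      obtain ⟨τ, h1, h2⟩ := exists_flip hℓ hiso hthin ψ
      exact ⟨τ, h2 j hj φ, h1⟩
    have key' : ∀ j ∈ S, ∀ (φ : E j →+* ℂ) (ψ : E i →+* ℂ), ∃ σ : ℂ ≃+* ℂ,
        cmp σ ψ = ψ ∧ cmp σ φ = ComplexEmbedding.conjugate φ := by
      intro j hj φ ψ
      obtain ⟨τ, h1, h2⟩ := exists_flip hℓ hiso hthin ψ
      refine ⟨τ * starRingAut, ?_, ?_⟩
      · have h3 : cmp starRingAut ψ = ComplexEmbedding.conjugate ψ := rfl
        rw [cmp_mul, h3, cmp_conj, h1, ComplexEmbedding.involutive_conjugate (E i) ψ]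
      · have h3 : cmp starRingAut φ = ComplexEmbedding.conjugate φ := rfl
        rw [cmp_mul, h3, cmp_conj, h2 j hj φ]
    intro a ha b hb hab φ ψ
    rcases ha with ha | ha
    · subst ha
      rcases hb with hb | hb
      · exact absurd hb.symm hab
      · exact key' b hb ψ φ
    · rcases hb with hb | hb
      · subst hb
        exact key a ha φ ψ
      · exact ih a ha b hb hab φ ψ

theorem pairwiseIndep_of_tower [Fintype ι] (hS : IsIsolatedTower E Set.univ) : PairwiseIndep E := by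
  intro i i' hne φ ψ
  obtain ⟨σ, h1, h2⟩ := indep_of_tower hS i (Set.mem_univ i) i' (Set.mem_univ i') hne φ ψ
  exact ⟨σ, fun x => RingHom.congr_fun h1 x, fun y => RingHom.congr_fun h2 y⟩

end Pool.Agent.T6.H22.DI
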