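import Pool.Agent.T6.H22.DI.Gen
import Pool.Agent.TH170.MF.Defs

/-!
# The odd representation of a CM field with an isolated residue degree is irreducible
-/

set_option autoImplicit false

namespace Pool.Agent.T6.H22.DI

open NumberField Module Pool.Agent.T6.H22.IT Pool.Agent.TH170.MF Pool.Agent.TH170.CM
  Pool.Agent.H204R3.CM

variable {K : Type} [Field K] [NumberField K] [IsCMField K]

/-- The action on the functions on the group of automorphisms. -/
def actF (σ : ℂ ≃+* ℂ) : Module.End ℤ ((ℂ ≃+* ℂ) → ℚ) where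
  toFun f := fun τ => f (τ * σ)
  map_add' _ _ := rfl
  map_smul' _ _ := rfl

omit [NumberField K] [IsCMField K] in
theorem cmp_conj_left (φ : K →+* ℂ) : cmp starRingAut φ = ComplexEmbedding.conjugate φ := rfl

/-- A linear relation between the conjugates of an odd function is symmetric. -/
theorem sym_of_rel {ℓ k : ℕ} (hℓ : ℓ.Prime) (hK : IsIsolated ℓ k K) {m : (K →+* ℂ) → ℚ}
    (hm : ∀ φ, m (ComplexEmbedding.conjugate φ) = - m φ) (hm0 : m ≠ 0) {e : (K →+* ℂ) → ℤ}
    (he : ∀ σ : ℂ ≃+* ℂ, ∑ φ, (e φ : ℚ) * m (cmp σ φ) = 0) (φ : K →+* ℂ) :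
    e (ComplexEmbedding.conjugate φ) = e φ := by
  classical
  set u : WW (fun _ : Unit => K) → ((ℂ ≃+* ℂ) → ℚ) := fun w τ => m (cmp τ w.2) with hu
  have hsys : Gen.IsSystem actF u := by
    refine ⟨?_, ?_⟩
    · intro w
      funext τ
      change m (cmp τ (ComplexEmbedding.conjugate w.2)) = - m (cmp τ w.2)
      rw [cmp_conj, hm]
    · intro σ w
      funext τ
      change m (cmp (τ * σ) w.2) = m (cmp τ (cmp σ w.2))
      rw [cmp_mul]
  rcases Gen.dichotomy (E := fun _ : Unit => K) hsys (i := ()) (T := ∅) hℓ hK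
    (fun j hj => absurd hj (Set.notMem_empty j)) (Set.notMem_empty _) with h | h
  · refine h (fun w => e w.2) (fun w _ => Set.mem_insert _ _) ?_ φ
    have h1 : ∑ w : WW (fun _ : Unit => K), e w.2 • u w = 0 := by
      funext τ
      rw [Finset.sum_apply, Fintype.sum_sigma, Fintype.sum_unique, Pi.zero_apply]
      refine Eq.trans (Finset.sum_congr rfl fun ψ _ => ?_) (he τ)
      rw [Pi.smul_apply, zsmul_eq_mul]
    rw [h1]
    exact IsOfFinAddOrder.zero
  · exfalso
    apply hm0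
    funext ψ
    have h1 := h ψ
    rw [isOfFinAddOrder_iff_nsmul_eq_zero] at h1
    obtain ⟨n, hn, h1⟩ := h1
    have h2 := congrFun h1 1
    rw [Pi.smul_apply, Pi.zero_apply, nsmul_eq_mul, mul_eq_zero] at h2
    rcases h2 with h2 | h2
    · exact absurd (by exact_mod_cast h2) hn.ne'
    · have h3 : m (cmp 1 ψ) = 0 := h2
      rwa [cmp_one] at h3

omit [NumberField K] [IsCMField K] in
theorem sgn_eq (Φ : Set (K →+* ℂ)) (φ : K →+* ℂ) : sgn Φ φ = 1 ∨ sgn Φ φ = -1 := by
  unfold sgn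
  split_ifs
  · exact Or.inl rfl
  · exact Or.inr rfl

omit [NumberField K] [IsCMField K] in
theorem sgn_conj {Φ : Set (K →+* ℂ)} (hΦ : IsCMType Φ) (φ : K →+* ℂ) :
    sgn Φ (ComplexEmbedding.conjugate φ) = - sgn Φ φ := by
  have h1 := hΦ φ
  unfold sgn
  by_cases h : φ ∈ Φ
  · rw [if_pos h, if_neg (h1.1 h)]
  · have h2 : ComplexEmbedding.conjugate φ ∈ Φ := by
      by_contra h3
      exact h (h1.2 h3)
    rw [if_neg h, if_pos h2, neg_neg]

/-- No CM type is degenerate. -/
theorem not_degenerate {ℓ k : ℕ} (hℓ : ℓ.Prime) (hK : IsIsolated ℓ k K) {Φ : Set (K →+* ℂ)}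
    (hΦ : IsCMType Φ) : ¬ Degenerate Φ := by
  rintro ⟨b, hb0, hb, hrel⟩
  apply hb0
  have hodd : ∀ φ, sgn Φ (ComplexEmbedding.conjugate φ) = - sgn Φ φ := sgn_conj hΦ
  have hne : (fun φ => ((sgn Φ φ : ℤ) : ℚ)) ≠ 0 := by
    intro h
    obtain ⟨φ⟩ : Nonempty (K →+* ℂ) := inferInstance
    have h1 := congrFun h φ
    simp only [Pi.zero_apply, Int.cast_eq_zero] at h1
    rcases sgn_eq Φ φ with h2 | h2 <;> rw [h2] at h1 <;> omega
  funext φ
  have h1 := sym_of_rel hℓ hK (m := fun φ => ((sgn Φ φ : ℤ) : ℚ)) (fun φ => by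
    simp only [hodd, Int.cast_neg]) hne (e := b) (fun σ => by
      have h2 := hrel σ
      have h3 : (((∑ φ, b φ * sgn Φ ((σ : ℂ →+* ℂ).comp φ) : ℤ)) : ℚ) = 0 := by rw [h2]; rfl
      push_cast at h3
      exact h3) φ
  rw [hb] at h1
  rw [Pi.zero_apply]
  omega

/-- **A nonzero Galois-stable space of odd functions contains all odd functions.** -/
theorem mem_of_stable {ℓ k : ℕ} (hℓ : ℓ.Prime) (hK : IsIsolated ℓ k K)
    {S : Submodule ℚ ((K →+* ℂ) → ℚ)} (hS : IsStable S) (hodd : IsOddSpace S) (h0 : S ≠ ⊥)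
    {n : (K →+* ℂ) → ℚ} (hn : ∀ φ, n (ComplexEmbedding.conjugate φ) = - n φ) : n ∈ S := by
  classical
  by_contra hnS
  obtain ⟨f, hfn, hf⟩ := Submodule.exists_le_ker_of_notMem hnS
  obtain ⟨m, hmS, hm0⟩ := Submodule.exists_mem_ne_zero_of_ne_bot h0
  have hsum : ∀ s : (K →+* ℂ) → ℚ, f s = ∑ φ, f (Pi.single φ 1) * s φ := by
    intro s
    conv_lhs => rw [← Finset.univ_sum_single s]
    rw [map_sum]
    refine Finset.sum_congr rfl fun φ _ => ?_
    have h1 : (Pi.single φ (s φ) : (K →+* ℂ) → ℚ) = s φ • Pi.single φ 1 := by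
      rw [← Pi.single_smul, smul_eq_mul, mul_one]
    rw [h1, map_smul, smul_eq_mul, mul_comm]
  obtain ⟨⟨D, hD⟩, hDe⟩ := IsLocalization.exist_integer_multiples_of_finset (nonZeroDivisors ℤ)
    (Finset.univ.image fun φ : K →+* ℂ => f (Pi.single φ 1))
  have h1 : ∀ φ : K →+* ℂ, ∃ z : ℤ, (z : ℚ) = (D : ℚ) * f (Pi.single φ 1) := by
    intro φ
    obtain ⟨z, hz⟩ := hDe _ (Finset.mem_image.2 ⟨φ, Finset.mem_univ _, rfl⟩)
    refine ⟨z, ?_⟩
    have h2 : (algebraMap ℤ ℚ) z = (z : ℚ) := rfl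
    rw [← h2, hz]
    change (D : ℤ) • f (Pi.single φ 1) = _
    rw [zsmul_eq_mul]
  choose e he using h1
  have hD0 : (D : ℚ) ≠ 0 := by
    exact_mod_cast nonZeroDivisors.ne_zero hD
  have hsym := sym_of_rel hℓ hK (m := m) (hodd m hmS) hm0 (e := e) (fun σ => by
    have h2 : (fun φ => m (cmp σ φ)) ∈ S := hS σ m hmS
    have h3 := LinearMap.mem_ker.1 (hf h2)
    rw [hsum] at h3
    have h4 : ∑ φ, (e φ : ℚ) * m (cmp σ φ) =
        (D : ℚ) * ∑ φ, f (Pi.single φ 1) * m (cmp σ φ) := by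
      rw [Finset.mul_sum]
      refine Finset.sum_congr rfl fun φ _ => ?_
      rw [he, mul_assoc]
    rw [h4, h3, mul_zero])
  apply hfn
  have h5 : (D : ℚ) * f n = 0 := by
    have h6 : (D : ℚ) * f n = ∑ φ, (e φ : ℚ) * n φ := by
      rw [hsum, Finset.mul_sum]
      refine Finset.sum_congr rfl fun φ _ => ?_
      rw [he, mul_assoc]
    have h7 : ∑ φ, (e φ : ℚ) * n φ = - ∑ φ, (e φ : ℚ) * n φ := by
      rw [← Finset.sum_neg_distrib]
      refine Finset.sum_equiv (Function.Involutive.toPerm _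
        (ComplexEmbedding.involutive_conjugate K)) (by simp) fun φ _ => ?_
      change (e φ : ℚ) * n φ = - ((e (ComplexEmbedding.conjugate φ) : ℚ) *
        n (ComplexEmbedding.conjugate φ))
      rw [hsym, hn]
      ring
    rw [h6]
    linarith
  rcases mul_eq_zero.1 h5 with h6 | h6
  · exact absurd h6 hD0
  · exact h6

theorem exists_type : ∃ Φ : Set (K →+* ℂ), IsCMType Φ := by
  refine ⟨{φ | (InfinitePlace.mk φ).embedding = φ}, fun φ => ?_⟩
  have h1 : ComplexEmbedding.conjugate φ ≠ φ := by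
    intro h
    have h2 : (InfinitePlace.mk φ).IsComplex := IsTotallyComplex.isComplex _
    rw [InfinitePlace.isComplex_mk_iff] at h2
    exact h2 h
  have h2 := InfinitePlace.embedding_mk_eq φ
  simp only [Set.mem_setOf_eq, InfinitePlace.mk_conjugate_eq]
  constructor
  · intro h h3
    exact h1 (h3.symm.trans h)
  · intro h
    rcases h2 with h3 | h3
    · exact h3
    · exact absurd h3 h

/-- The dimension of the minimal spaces. -/
theorem finrank_le {ℓ k : ℕ} (hℓ : ℓ.Prime) (hK : IsIsolated ℓ k K)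
    {S : Submodule ℚ ((K →+* ℂ) → ℚ)} (hS : S ∈ minimalSpaces K) : finrank ℚ K ≤ 2 * finrank ℚ S := by
  classical
  obtain ⟨Φ, hΦ⟩ := exists_type (K := K)
  obtain ⟨h0, hst, hodd, -⟩ := hS
  -- the map `u ↦ (u - u ∘ c, s (u + u ∘ c))`
  set T : ((K →+* ℂ) → ℚ) →ₗ[ℚ] ((K →+* ℂ) → ℚ) × ((K →+* ℂ) → ℚ) :=
    { toFun := fun u => (fun φ => u φ - u (ComplexEmbedding.conjugate φ),
        fun φ => (sgn Φ φ : ℚ) * (u φ + u (ComplexEmbedding.conjugate φ)))
      map_add' := by
        intro u v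
        ext φ
        · simp only [Pi.add_apply, Prod.mk_add_mk]
          ring
        · simp only [Pi.add_apply, Prod.mk_add_mk]
          ring
      map_smul' := by
        intro c u
        ext φ
        · simp only [Pi.smul_apply, smul_eq_mul, RingHom.id_apply, Prod.smul_mk]
          ring
        · simp only [Pi.smul_apply, smul_eq_mul, RingHom.id_apply, Prod.smul_mk]
          ring } with hT
  have hmem : ∀ u, (T u).1 ∈ S ∧ (T u).2 ∈ S := by
    intro u
    refine ⟨mem_of_stable hℓ hK hst hodd h0 fun φ => ?_,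
      mem_of_stable hℓ hK hst hodd h0 fun φ => ?_⟩
    · change u (ComplexEmbedding.conjugate φ) -
        u (ComplexEmbedding.conjugate (ComplexEmbedding.conjugate φ)) =
          -(u φ - u (ComplexEmbedding.conjugate φ))
      rw [ComplexEmbedding.involutive_conjugate K φ]
      ring
    · change (sgn Φ (ComplexEmbedding.conjugate φ) : ℚ) * (u (ComplexEmbedding.conjugate φ) +
        u (ComplexEmbedding.conjugate (ComplexEmbedding.conjugate φ))) =
          -((sgn Φ φ : ℚ) * (u φ + u (ComplexEmbedding.conjugate φ)))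
      rw [ComplexEmbedding.involutive_conjugate K φ, sgn_conj hΦ]
      push_cast
      ring
  set T' : ((K →+* ℂ) → ℚ) →ₗ[ℚ] S × S :=
    (LinearMap.codRestrict S ((LinearMap.fst ℚ _ _).comp T) fun u => (hmem u).1).prod
      (LinearMap.codRestrict S ((LinearMap.snd ℚ _ _).comp T) fun u => (hmem u).2) with hT'
  have hinj : Function.Injective T' := by
    rw [← LinearMap.ker_eq_bot, LinearMap.ker_eq_bot']
    intro u hu
    have h1 : (T u).1 = 0 := by
      have h2 := congrArg (fun x : S × S => (x.1 : (K →+* ℂ) → ℚ)) hu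
      exact h2
    have h2 : (T u).2 = 0 := by
      have h2 := congrArg (fun x : S × S => (x.2 : (K →+* ℂ) → ℚ)) hu
      exact h2
    funext φ
    have h3 : u φ - u (ComplexEmbedding.conjugate φ) = 0 := congrFun h1 φ
    have h4 : (sgn Φ φ : ℚ) * (u φ + u (ComplexEmbedding.conjugate φ)) = 0 := congrFun h2 φ
    have h5 : u φ + u (ComplexEmbedding.conjugate φ) = 0 := by
      rcases mul_eq_zero.1 h4 with h6 | h6
      · rcases sgn_eq Φ φ with h7 | h7 <;> rw [h7] at h6 <;> norm_num at h6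
      · exact h6
    rw [Pi.zero_apply]
    linarith
  have h1 := LinearMap.finrank_le_finrank_of_injective hinj
  rw [Module.finrank_prod, Module.finrank_fintype_fun_eq_card, ← Nat.card_eq_fintype_card] at h1
  have h2 : Nat.card (K →+* ℂ) = finrank ℚ K := by
    rw [Nat.card_eq_fintype_card]
    exact NumberField.Embeddings.card K ℂ
  rw [h2] at h1
  omega

end Pool.Agent.T6.H22.DI
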