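import Pool.Agent.T6.H22.DI.Step

/-!
# The conjectures of Beilinson and Tate for towers of abelian varieties with isolated residue degrees
-/

set_option autoImplicit false

namespace Pool.Agent.T6.H22.DI

open Polynomial Module Pool.Agent.W495.TA Pool.Agent.W495.FM Pool.Agent.TH117 Pool.Agent.TH117.BL
  Pool.Agent.TH117.GN NumberField Pool.Agent.T6.H36.RT

variable {p : ℕ} [Fact p.Prime] {ν : PadicAlgCl p ≃+* ℂ}
variable {Ω : Type} [Field Ω] [IsAlgClosed Ω] [CharZero Ω] {V : Type} {T : Homology Ω V}

theorem tb (hT : IsHomology T) {X : V} (hX : Generated T (IsIsolatedTowerAbelian p ν T) X) :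
    TB T X := by
  refine tb_generated hT (fun X hX => ?_) hX
  obtain ⟨Z, Y, C, M, g, hZ, hY, hC, hM, hX⟩ := hX
  exact tb_abelian hT hC (tateHolds_elem (fun e he => elementary_tower hZ e he
    (fun w _ => Set.mem_univ _)) hY hC) hM hX

theorem onto (hT : IsHomology T) (hW : HasWeights T) {X : V}
    (hX : Spread T (Generated T (IsIsolatedTowerAbelian p ν T)) X) (i : ℤ) : IsOnto T X i :=
  onto_spread hT hW (fun _ h1 i => ((tb hT h1).iso hT i).1) hX i

end Pool.Agent.T6.H22.DI
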