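import Mathlib

/-!
# Families of Weil numbers
-/

set_option autoImplicit false

namespace Pool.Agent.T6.H22.DI

open NumberField

/-- The `π i` are Weil numbers for the field with `p ^ a` elements which generate the CM fields `K i`,
and none of them is supersingular (`π i ^ 2 / p ^ a` is not a root of unity). -/
structure IsWeilFamily (p a : ℕ) {I : Type} {K : I → Type} [∀ i, Field (K i)]
    [∀ i, NumberField (K i)] [∀ i, IsCMField (K i)] (π : ∀ i, K i) : Prop where
  pos : 0 < a
  gen : ∀ i, IntermediateField.adjoin ℚ {π i} = ⊤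
  weil : ∀ i, π i * IsCMField.complexConj (K i) (π i) = (p : K i) ^ a
  nonsupersingular : ∀ (i : I) (s : ℕ), 0 < s → π i ^ (2 * s) ≠ (p : K i) ^ (a * s)

end Pool.Agent.T6.H22.DI
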