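import Mathlib

/-!
# Isolated residue degrees of prime numbers in number fields
-/

set_option autoImplicit false

namespace Pool.Agent.T6.H22.DI

open NumberField Module

/-- The degree of `K` is smaller than `2 ^ (k + 1)`, or the prime number `ℓ` is unramified in `K` and
`2 ^ (k + 1)` does not divide any residue degree of `ℓ` in `K`. -/
def IsThin (ℓ k : ℕ) (K : Type) [Field K] [NumberField K] : Prop :=
  finrank ℚ K < 2 ^ (k + 1) ∨ (¬ (ℓ : ℤ) ∣ discr K ∧ ∀ P : Ideal (𝓞 K), P.IsPrime →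
    (ℓ : 𝓞 K) ∈ P → ∀ f : ℕ, Nat.card (𝓞 K ⧸ P) = ℓ ^ f → ¬ 2 ^ (k + 1) ∣ f)

/-- The prime number `ℓ` is unramified in `K`, and `2 ^ (k + 1)` divides the residue degree of exactly
one prime ideal `P₀` over `ℓ`; the residue degree of `P₀` is `2 ^ (k + 1)`. -/
def IsIsolated (ℓ k : ℕ) (K : Type) [Field K] [NumberField K] : Prop :=
  ¬ (ℓ : ℤ) ∣ discr K ∧ ∃ P₀ : Ideal (𝓞 K), P₀.IsPrime ∧ (ℓ : 𝓞 K) ∈ P₀ ∧
    Nat.card (𝓞 K ⧸ P₀) = ℓ ^ 2 ^ (k + 1) ∧ ∀ P : Ideal (𝓞 K), P.IsPrime → (ℓ : 𝓞 K) ∈ P →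
      P ≠ P₀ → ∀ f : ℕ, Nat.card (𝓞 K ⧸ P) = ℓ ^ f → ¬ 2 ^ (k + 1) ∣ f

/-- The members `K j`, `j ∈ S`, of the family `K` of number fields can be ordered such that for each of
them some prime number `ℓ` and some `k` are isolated in it and thin in the previous ones. -/
inductive IsIsolatedTower {I : Type} (K : I → Type) [∀ i, Field (K i)] [∀ i, NumberField (K i)] :
    Set I → Prop
  | empty : IsIsolatedTower K ∅
  | insert (i : I) (S : Set I) (ℓ k : ℕ) : IsIsolatedTower K S → ℓ.Prime → IsIsolated ℓ k (K i) →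
      (∀ j ∈ S, IsThin ℓ k (K j)) → IsIsolatedTower K (insert i S)

end Pool.Agent.T6.H22.DI
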