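import Pool.Agent.T6.H22.DI.Frob
import Pool.Agent.T6.H22.DI.Defs
import Pool.Agent.T6.H22.IT.Aut

/-!
# Automorphisms of the complex numbers given by prime numbers with isolated residue degrees
-/

set_option autoImplicit false

namespace Pool.Agent.T6.H22.DI

open NumberField Module Pool.Agent.T6.H22.IT

/-- A cycle with complex conjugation. -/
theorem half {K : Type} [Field K] [NumberField K] [IsCMField K] {N : ℕ} {σ : ℂ ≃+* ℂ}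
    {φ : K →+* ℂ} (h : ∀ m : ℕ, cmp (σ ^ m) φ = φ → 2 * N ∣ m)
    (ht : ∃ t < 2 * N, cmp (σ ^ t) φ = ComplexEmbedding.conjugate φ) :
    cmp (σ ^ N) φ = ComplexEmbedding.conjugate φ := by
  obtain ⟨t, ht, htφ⟩ := ht
  have h2 : cmp (σ ^ (2 * t)) φ = φ := by
    rw [two_mul, pow_add, cmp_mul, htφ, cmp_conj, htφ]
    ext x
    simp
  have ht0 : t ≠ 0 := by
    rintro rfl
    rw [pow_zero, cmp_one] at htφ
    exact IsTotallyComplex.complexEmbedding_not_isReal φ htφ.symm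
  have h3 := h (2 * t) h2
  have h4 : N ∣ t := Nat.dvd_of_mul_dvd_mul_left (by norm_num) h3
  obtain ⟨c, rfl⟩ := h4
  have hc : c = 1 := by
    have hN : 0 < N := by
      rcases Nat.eq_zero_or_pos N with h5 | h5
      · subst h5
        omega
      · exact h5
    have h6 : c < 2 := by
      by_contra h7
      have : 2 ≤ c := by omega
      nlinarith
    have h7 : c ≠ 0 := by
      rintro rfl
      exact ht0 (mul_zero _)
    omega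
  subst hc
  rw [mul_one] at htφ
  exact htφ

section main

variable {ι : Type} [Fintype ι] (E : ι → Type) [∀ i, Field (E i)] [∀ i, NumberField (E i)]
  [∀ i, IsCMField (E i)]

/-- The automorphism given by a prime number with an isolated residue degree. -/
theorem exists_sigma (i : ι) (T : Set ι) {k ℓ : ℕ} (hℓ : ℓ.Prime) (hi : IsIsolated ℓ k (E i))
    (hT : ∀ j ∈ T, IsThin ℓ k (E j)) :
    ∃ (σ : ℂ ≃+* ℂ) (M : ℕ) (O : Set (E i →+* ℂ)), Odd M ∧ O.Nonempty ∧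
      (∀ φ ∈ O, ∀ ψ ∈ O, ∃ m < 2 ^ (k + 1), cmp (σ ^ m) φ = ψ) ∧
      (∀ φ ∈ O, ∀ m : ℕ, cmp (σ ^ m) φ ∈ O) ∧
      (∀ φ ∈ O, ∀ m : ℕ, cmp (σ ^ m) φ = φ ↔ 2 ^ (k + 1) ∣ m) ∧
      (∀ φ ∈ O, cmp (σ ^ 2 ^ k) φ = ComplexEmbedding.conjugate φ) ∧
      (∀ φ ∉ O, cmp (σ ^ (2 ^ k * M)) φ = φ) ∧
      ∀ j ∈ T, ∀ ψ : E j →+* ℂ, cmp (σ ^ (2 ^ k * M)) ψ = ψ := by
  classical
  obtain ⟨L, _, _, j, hj⟩ := Pool.Agent.H204R3.CM.exists_galois E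
  obtain ⟨hdisc, P₀, hP₀, hmem₀, hcard₀, huniq⟩ := hi
  obtain ⟨φ₀, -⟩ := hj i (Classical.arbitrary _)
  obtain ⟨Q, hQ, hQP⟩ := exists_comap φ₀ hP₀
  have hmemQ : (ℓ : 𝓞 L) ∈ Q := by
    have h1 : (ℓ : 𝓞 (E i)) ∈ Q.comap (mp φ₀) := by rw [hQP]; exact hmem₀
    rwa [Ideal.mem_comap, map_natCast] at h1
  obtain ⟨g, hg⟩ := exists_frob_at hℓ hQ hmemQ
  obtain ⟨σ, hσ⟩ := Pool.Agent.H977R3.CM.exists_aut j (g : L ≃+* L)
  have hcmp : ∀ (K : Type) [Field K] (m : ℕ) (φ : K →+* L),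
      cmp (σ ^ m) (j.comp φ) = j.comp (((g ^ m : L ≃ₐ[ℚ] L) : L →+* L).comp φ) := by
    intro K _ m φ
    induction m with
    | zero => rfl
    | succ m ih =>
      rw [cmp_pow_succ, ih]
      ext x
      change σ (j ((g ^ m) (φ x))) = j ((g ^ (m + 1)) (φ x))
      rw [hσ, pow_succ']
      rfl
  have hjinj : ∀ (K : Type) [Field K] (φ ψ : K →+* L), j.comp φ = j.comp ψ → φ = ψ := by
    intro K _ φ ψ h
    exact RingHom.ext fun x => j.injective (RingHom.congr_fun h x)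
  -- periods of embeddings
  have hper : ∀ jj ∈ T, ∀ ψ : E jj →+* ℂ, ∃ f, 0 < f ∧ ¬ 2 ^ (k + 1) ∣ f ∧
      cmp (σ ^ f) ψ = ψ := by
    intro jj hjj ψ
    rcases hT jj hjj with h | ⟨h1, h2⟩
    · exact exists_period_small h σ ψ
    · obtain ⟨φ, rfl⟩ := hj jj ψ
      obtain ⟨hPp, hmem, -, f, hf0, hf⟩ := residue hg hℓ φ
      refine ⟨f, hf0, h2 _ hPp hmem f hf, ?_⟩
      rw [hcmp, hg.fix_of_card hℓ h1 j (hj jj) φ hf]
  -- the orbit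
  let O : Set (E i →+* ℂ) := {ψ | ∃ φ : E i →+* L, j.comp φ = ψ ∧ Q.comap (mp φ) = P₀}
  have hperO : ∀ ψ : E i →+* ℂ, ψ ∉ O → ∃ f, 0 < f ∧ ¬ 2 ^ (k + 1) ∣ f ∧ cmp (σ ^ f) ψ = ψ := by
    intro ψ hψ
    obtain ⟨φ, rfl⟩ := hj i ψ
    obtain ⟨hPp, hmem, -, f, hf0, hf⟩ := residue hg hℓ φ
    refine ⟨f, hf0, huniq _ hPp hmem (fun h => hψ ⟨φ, rfl, h⟩) f hf, ?_⟩
    rw [hcmp, hg.fix_of_card hℓ hdisc j (hj i) φ hf]
  have hfixO : ∀ φ ∈ O, ∀ m : ℕ, cmp (σ ^ m) φ = φ ↔ 2 ^ (k + 1) ∣ m := by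
    rintro _ ⟨φ, rfl, hφ⟩ m
    have hc : Nat.card (𝓞 (E i) ⧸ Q.comap (mp φ)) = ℓ ^ 2 ^ (k + 1) := by rw [hφ]; exact hcard₀
    constructor
    · intro h
      rw [hcmp] at h
      exact dvd_of_fix hg hℓ φ (by positivity) hc (hjinj _ _ _ h)
    · rintro ⟨c, rfl⟩
      apply cmp_pow_mul_fix
      rw [hcmp, hg.fix_of_card hℓ hdisc j (hj i) φ hc]
  have hconjO : ∀ φ ∈ O, ComplexEmbedding.conjugate φ ∈ O := by
    intro ψ hψ
    by_contra hn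
    obtain ⟨f, hf0, hnd, hf⟩ := hperO _ hn
    rw [cmp_conj] at hf
    have h1 : cmp (σ ^ f) ψ = ψ := by
      have h2 := congrArg ComplexEmbedding.conjugate hf
      rwa [ComplexEmbedding.involutive_conjugate (E i) (cmp (σ ^ f) ψ),
        ComplexEmbedding.involutive_conjugate (E i) ψ] at h2
    exact hnd ((hfixO ψ hψ f).1 h1)
  have htransO : ∀ φ ∈ O, ∀ ψ ∈ O, ∃ m < 2 ^ (k + 1), cmp (σ ^ m) φ = ψ := by
    rintro _ ⟨φ, rfl, hφ⟩ _ ⟨ψ, rfl, hψ⟩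
    have hc : Nat.card (𝓞 (E i) ⧸ Q.comap (mp φ)) = ℓ ^ 2 ^ (k + 1) := by rw [hφ]; exact hcard₀
    obtain ⟨m, hm, h⟩ := exists_pow hg hℓ hdisc j (hj i) (hφ.trans hψ.symm) (by positivity) hc
    exact ⟨m, hm, by rw [hcmp, h]⟩
  have hmemO : ∀ φ ∈ O, ∀ m : ℕ, cmp (σ ^ m) φ ∈ O := by
    intro φ hφ m
    by_contra hn
    obtain ⟨f, hf0, hnd, hf⟩ := hperO _ hn
    have h1 : cmp (σ ^ f) φ = φ := by
      apply cmp_injective (σ ^ m)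
      rw [← cmp_mul, ← pow_add, add_comm, pow_add, cmp_mul]
      exact hf
    exact hnd ((hfixO φ hφ f).1 h1)
  have hhalf : ∀ φ ∈ O, cmp (σ ^ 2 ^ k) φ = ComplexEmbedding.conjugate φ := by
    intro φ hφ
    apply half
    · intro m hm
      rw [← pow_succ']
      exact (hfixO φ hφ m).1 hm
    · obtain ⟨m, hm, h⟩ := htransO φ hφ _ (hconjO φ hφ)
      exact ⟨m, by rwa [← pow_succ'], h⟩
  -- the odd multiples
  have hoddT : ∀ jj : ι, ∀ ψ : E jj →+* ℂ, ∃ m, Odd m ∧ (jj ∈ T → cmp (σ ^ (2 ^ k * m)) ψ = ψ) := by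
    intro jj ψ
    by_cases hjj : jj ∈ T
    · obtain ⟨f, hf, hnd, hfix⟩ := hper jj hjj ψ
      obtain ⟨m, hm, n, hn⟩ := dvd_of_not_dvd hf hnd
      exact ⟨m, hm, fun _ => by rw [hn]; exact cmp_pow_mul_fix hfix n⟩
    · exact ⟨1, odd_one, fun h => absurd h hjj⟩
  have hoddO : ∀ ψ : E i →+* ℂ, ∃ m, Odd m ∧ (ψ ∉ O → cmp (σ ^ (2 ^ k * m)) ψ = ψ) := by
    intro ψ
    by_cases hψ : ψ ∈ O
    · exact ⟨1, odd_one, fun h => absurd hψ h⟩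
    · obtain ⟨f, hf, hnd, hfix⟩ := hperO ψ hψ
      obtain ⟨m, hm, n, hn⟩ := dvd_of_not_dvd hf hnd
      exact ⟨m, hm, fun _ => by rw [hn]; exact cmp_pow_mul_fix hfix n⟩
  choose mm hmm hfix using hoddT
  choose mo hmo hfixo using hoddO
  refine ⟨σ, (∏ jj, ∏ ψ, mm jj ψ) * ∏ ψ, mo ψ, O, ?_, ?_, htransO, hmemO, hfixO, hhalf, ?_, ?_⟩
  · apply Odd.mul
    · apply Finset.prod_induction _ Odd (fun _ _ h h' => h.mul h') odd_one
      intro jj _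
      exact Finset.prod_induction _ Odd (fun _ _ h h' => h.mul h') odd_one fun ψ _ => hmm jj ψ
    · exact Finset.prod_induction _ Odd (fun _ _ h h' => h.mul h') odd_one fun ψ _ => hmo ψ
  · exact ⟨j.comp φ₀, φ₀, rfl, hQP⟩
  · intro ψ hψ
    have h1 : mo ψ ∣ (∏ jj, ∏ ψ, mm jj ψ) * ∏ ψ, mo ψ :=
      (Finset.dvd_prod_of_mem mo (Finset.mem_univ ψ)).trans (dvd_mul_left _ _)
    obtain ⟨c, hc⟩ := h1
    rw [hc, ← mul_assoc]
    exact cmp_pow_mul_fix (hfixo ψ hψ) c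
  · intro jj hjj ψ
    have h1 : mm jj ψ ∣ (∏ jj, ∏ ψ, mm jj ψ) * ∏ ψ, mo ψ :=
      ((Finset.dvd_prod_of_mem (mm jj) (Finset.mem_univ ψ)).trans
        (Finset.dvd_prod_of_mem (fun jj => ∏ ψ, mm jj ψ) (Finset.mem_univ jj))).trans
          (dvd_mul_right _ _)
    obtain ⟨c, hc⟩ := h1
    rw [hc, ← mul_assoc]
    exact cmp_pow_mul_fix (hfix jj ψ hjj) c

end main

end Pool.Agent.T6.H22.DI
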