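import Pool.Agent.T6.H22.IT.Frob

/-!
# Frobenius elements, residue degrees and complex embeddings
-/

set_option autoImplicit false

namespace Pool.Agent.T6.H22.DI

open NumberField Module Pool.Agent.T6.H22.IT

variable {L : Type} [Field L] [NumberField L]

theorem exists_frob_at [IsGalois ℚ L] {ℓ : ℕ} (hℓ : ℓ.Prime) {Q : Ideal (𝓞 L)} (hQ : Q.IsPrime)
    (hmem : (ℓ : 𝓞 L) ∈ Q) : ∃ g : L ≃ₐ[ℚ] L, IsFrob ℓ Q g := by
  have hQ0 : Q ≠ ⊥ := by
    rintro rfl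
    rw [Ideal.mem_bot] at hmem
    exact hℓ.ne_zero (by exact_mod_cast hmem)
  have hfin : Finite (𝓞 L ⧸ Q) := Ideal.finiteQuotientOfFreeOfNeBot Q hQ0
  obtain ⟨g, hg⟩ := IsArithFrobAt.exists_of_isInvariant ℤ (L ≃ₐ[ℚ] L) Q
  refine ⟨g, hQ, hmem, fun x => ?_⟩
  have h1 := hg x
  have h2 : Nat.card (ℤ ⧸ Q.under ℤ) = ℓ := by
    have h3 : Q.under ℤ = Ideal.span {(ℓ : ℤ)} := by
      have h4 : (Ideal.span {(ℓ : ℤ)}).IsMaximal := by
        have h5 : (Ideal.span {(ℓ : ℤ)}).IsPrime := by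
          rw [Ideal.span_singleton_prime (by exact_mod_cast hℓ.ne_zero)]
          exact Nat.prime_iff_prime_int.1 hℓ
        refine h5.isMaximal ?_
        rw [Ne, Ideal.span_singleton_eq_bot]
        exact_mod_cast hℓ.ne_zero
      refine (h4.eq_of_le ?_ ?_).symm
      · exact (Ideal.comap_isPrime (algebraMap ℤ (𝓞 L)) Q).ne_top
      · rw [Ideal.span_singleton_le_iff_mem]
        change (algebraMap ℤ (𝓞 L)) (ℓ : ℤ) ∈ Q
        simpa using hmem
    rw [h3, Nat.card_congr (Int.quotientSpanNatEquivZMod ℓ).toEquiv, Nat.card_zmod]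
  rw [h2] at h1
  exact h1

variable {K : Type} [Field K] [NumberField K] {ℓ : ℕ} {Q : Ideal (𝓞 L)} {g : L ≃ₐ[ℚ] L}

/-- The data of the residue field. -/
theorem residue (h : IsFrob ℓ Q g) (hℓ : ℓ.Prime) (φ : K →+* L) :
    (Q.comap (mp φ)).IsPrime ∧ (ℓ : 𝓞 K) ∈ Q.comap (mp φ) ∧ Q.comap (mp φ) ≠ ⊥ ∧
      ∃ f : ℕ, 0 < f ∧ Nat.card (𝓞 K ⧸ Q.comap (mp φ)) = ℓ ^ f := by
  have hQp := h.prime
  have hPp : (Q.comap (mp φ)).IsPrime := Ideal.comap_isPrime _ _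
  have hmem : (ℓ : 𝓞 K) ∈ Q.comap (mp φ) := by
    rw [Ideal.mem_comap, map_natCast]
    exact h.mem
  have hne : Q.comap (mp φ) ≠ ⊥ := by
    intro h0
    rw [h0, Ideal.mem_bot] at hmem
    exact hℓ.ne_zero (by exact_mod_cast hmem)
  refine ⟨hPp, hmem, hne, ?_⟩
  have hmax : (Q.comap (mp φ)).IsMaximal := hPp.isMaximal hne
  have hfin : Finite (𝓞 K ⧸ Q.comap (mp φ)) := Ideal.finiteQuotientOfFreeOfNeBot _ hne
  have : Fact ℓ.Prime := ⟨hℓ⟩
  let _ : Fintype (𝓞 K ⧸ Q.comap (mp φ)) := Fintype.ofFinite _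
  let _ : Field (𝓞 K ⧸ Q.comap (mp φ)) := Ideal.Quotient.field _
  have hchar : CharP (𝓞 K ⧸ Q.comap (mp φ)) ℓ := by
    have h3 : ((ℓ : ℕ) : 𝓞 K ⧸ Q.comap (mp φ)) = 0 := by
      have h4 := Ideal.Quotient.eq_zero_iff_mem.2 hmem
      rw [map_natCast] at h4
      exact h4
    obtain ⟨c, hc⟩ := CharP.exists (𝓞 K ⧸ Q.comap (mp φ))
    have h5 := (CharP.cast_eq_zero_iff (𝓞 K ⧸ Q.comap (mp φ)) c ℓ).1 h3
    rcases (Nat.dvd_prime hℓ).1 h5 with h6 | h6
    · subst h6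
      exact absurd rfl (CharP.char_ne_one (𝓞 K ⧸ Q.comap (mp φ)) 1)
    · rwa [h6] at hc
  obtain ⟨f, -, hf⟩ := FiniteField.card (𝓞 K ⧸ Q.comap (mp φ)) ℓ
  rw [← Nat.card_eq_fintype_card] at hf
  exact ⟨f, f.pos, hf⟩

/-- A power of the Frobenius element that fixes an embedding is a multiple of the residue degree. -/
theorem dvd_of_fix (h : IsFrob ℓ Q g) (hℓ : ℓ.Prime) (φ : K →+* L) {f : ℕ} (hf0 : 0 < f)
    (hf : Nat.card (𝓞 K ⧸ Q.comap (mp φ)) = ℓ ^ f) {d : ℕ}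
    (hφ : ((g ^ d : L ≃ₐ[ℚ] L) : L →+* L).comp φ = φ) : f ∣ d := by
  classical
  obtain ⟨hPp, hmem, hne, -⟩ := residue h hℓ φ
  have hmax : (Q.comap (mp φ)).IsMaximal := hPp.isMaximal hne
  have hfin : Finite (𝓞 K ⧸ Q.comap (mp φ)) := Ideal.finiteQuotientOfFreeOfNeBot _ hne
  let _ : Fintype (𝓞 K ⧸ Q.comap (mp φ)) := Fintype.ofFinite _
  let _ : Field (𝓞 K ⧸ Q.comap (mp φ)) := Ideal.Quotient.field _
  have hcard : Fintype.card (𝓞 K ⧸ Q.comap (mp φ)) = ℓ ^ f := by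
    rw [← Nat.card_eq_fintype_card, hf]
  have hd : ∀ y : 𝓞 K ⧸ Q.comap (mp φ), y ^ ℓ ^ d = y := by
    intro y
    obtain ⟨x, rfl⟩ := Ideal.Quotient.mk_surjective y
    rw [← map_pow, Ideal.Quotient.eq, Ideal.mem_comap, map_sub, map_pow]
    have h1 := h.pow_smul d (mp φ x)
    rw [mp_smul, hφ] at h1
    have h2 := Q.neg_mem h1
    rwa [neg_sub] at h2
  have hfull : ∀ y : 𝓞 K ⧸ Q.comap (mp φ), ∀ m : ℕ, y ^ ℓ ^ (f * m) = y := by
    intro y m
    induction m with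
    | zero => rw [mul_zero, pow_zero, pow_one]
    | succ m ih =>
      rw [mul_add, mul_one, pow_add, pow_mul, ih, ← hcard, FiniteField.pow_card]
  -- the remainder
  set b := d % f with hb
  have hb1 : ∀ y : 𝓞 K ⧸ Q.comap (mp φ), y ^ ℓ ^ b = y := by
    intro y
    have h1 := hd y
    have h2 : d = f * (d / f) + b := (Nat.div_add_mod d f).symm
    rw [h2, pow_add, pow_mul, hfull] at h1
    exact h1
  by_contra hnd
  have hb0 : 0 < b := Nat.pos_of_ne_zero fun h0 => hnd (Nat.dvd_of_mod_eq_zero h0)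
  have hbf : b < f := Nat.mod_lt _ hf0
  have h1 : (Polynomial.X ^ ℓ ^ b - Polynomial.X : Polynomial (𝓞 K ⧸ Q.comap (mp φ))) ≠ 0 :=
    FiniteField.X_pow_card_pow_sub_X_ne_zero _ hb0.ne' hℓ.one_lt
  have h2 : Fintype.card (𝓞 K ⧸ Q.comap (mp φ)) ≤ ℓ ^ b := by
    rw [← Finset.card_univ]
    have h3 : (Finset.univ : Finset (𝓞 K ⧸ Q.comap (mp φ))) ⊆
        (Polynomial.X ^ ℓ ^ b - Polynomial.X :
          Polynomial (𝓞 K ⧸ Q.comap (mp φ))).roots.toFinset := by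
      intro y _
      rw [Multiset.mem_toFinset, Polynomial.mem_roots h1, Polynomial.IsRoot.def,
        Polynomial.eval_sub, Polynomial.eval_pow, Polynomial.eval_X, hb1, sub_self]
    refine (Finset.card_le_card h3).trans ((Multiset.toFinset_card_le _).trans
      ((Polynomial.card_roots' _).trans ?_))
    rw [FiniteField.X_pow_card_pow_sub_X_natDegree_eq _ hb0.ne' hℓ.one_lt]
  rw [hcard] at h2
  exact absurd ((Nat.pow_le_pow_iff_right hℓ.one_lt).1 h2) (by omega)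

/-- Two embeddings with the same kernel modulo `Q` are conjugate under the Frobenius element. -/
theorem exists_pow (h : IsFrob ℓ Q g) (hℓ : ℓ.Prime) (hK : ¬ (ℓ : ℤ) ∣ discr K)
    (j : L →+* ℂ) (hj : ∀ ψ : K →+* ℂ, ∃ φ : K →+* L, j.comp φ = ψ) {φ ψ : K →+* L}
    (hφψ : Q.comap (mp φ) = Q.comap (mp ψ)) {f : ℕ} (hf0 : 0 < f)
    (hf : Nat.card (𝓞 K ⧸ Q.comap (mp φ)) = ℓ ^ f) :
    ∃ m < f, ((g ^ m : L ≃ₐ[ℚ] L) : L →+* L).comp φ = ψ := by
  classical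
  by_contra hcon
  push Not at hcon
  have hQp := h.prime
  obtain ⟨hPp, hmem, hne, -⟩ := residue h hℓ φ
  have : Fact ℓ.Prime := ⟨hℓ⟩
  set P := Q.comap (mp φ) with hP
  have hmax : P.IsMaximal := hPp.isMaximal hne
  have hfin : Finite (𝓞 K ⧸ P) := Ideal.finiteQuotientOfFreeOfNeBot _ hne
  let _ : Field (𝓞 K ⧸ P) := Ideal.Quotient.field _
  have hQ0 : Q ≠ ⊥ := by
    rintro rfl
    have h1 := h.mem
    rw [Ideal.mem_bot] at h1
    exact hℓ.ne_zero (by exact_mod_cast h1)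
  have hQmax : Q.IsMaximal := hQp.isMaximal hQ0
  have hfinQ : Finite (𝓞 L ⧸ Q) := Ideal.finiteQuotientOfFreeOfNeBot Q hQ0
  let _ : Field (𝓞 L ⧸ Q) := Ideal.Quotient.field _
  have hc1 : ((ℓ : ℕ) : 𝓞 K ⧸ P) = 0 := by
    have h4 := Ideal.Quotient.eq_zero_iff_mem.2 hmem
    rw [map_natCast] at h4
    exact h4
  have hc2 : ((ℓ : ℕ) : 𝓞 L ⧸ Q) = 0 := by
    have h4 := Ideal.Quotient.eq_zero_iff_mem.2 h.mem
    rw [map_natCast] at h4
    exact h4
  have hch1 : CharP (𝓞 K ⧸ P) ℓ := by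
    obtain ⟨c, hc⟩ := CharP.exists (𝓞 K ⧸ P)
    have h5 := (CharP.cast_eq_zero_iff (𝓞 K ⧸ P) c ℓ).1 hc1
    rcases (Nat.dvd_prime hℓ).1 h5 with h6 | h6
    · subst h6
      exact absurd rfl (CharP.char_ne_one (𝓞 K ⧸ P) 1)
    · rwa [h6] at hc
  have hch2 : CharP (𝓞 L ⧸ Q) ℓ := by
    obtain ⟨c, hc⟩ := CharP.exists (𝓞 L ⧸ Q)
    have h5 := (CharP.cast_eq_zero_iff (𝓞 L ⧸ Q) c ℓ).1 hc2
    rcases (Nat.dvd_prime hℓ).1 h5 with h6 | h6
    · subst h6
      exact absurd rfl (CharP.char_ne_one (𝓞 L ⧸ Q) 1)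
    · rwa [h6] at hc
  let _ : Algebra (ZMod ℓ) (𝓞 K ⧸ P) := ZMod.algebra _ _
  let _ : Algebra (ZMod ℓ) (𝓞 L ⧸ Q) := ZMod.algebra _ _
  -- the homomorphisms of the residue field
  have hlift : ∀ θ : K →+* L, Q.comap (mp θ) = P → ∃ t : (𝓞 K ⧸ P) →ₐ[ZMod ℓ] (𝓞 L ⧸ Q),
      ∀ x : 𝓞 K, t (Ideal.Quotient.mk P x) = Ideal.Quotient.mk Q (mp θ x) := by
    intro θ hθ
    let t : (𝓞 K ⧸ P) →+* (𝓞 L ⧸ Q) := Ideal.quotientMap Q (mp θ) (le_of_eq hθ.symm)
    refine ⟨{ t with commutes' := fun r => ?_ }, fun x => ?_⟩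
    · exact RingHom.congr_fun (Subsingleton.elim (t.comp (algebraMap (ZMod ℓ) (𝓞 K ⧸ P)))
        (algebraMap (ZMod ℓ) (𝓞 L ⧸ Q))) r
    · exact Ideal.quotientMap_mk (H := le_of_eq hθ.symm)
  have hcomap : ∀ m : ℕ, Q.comap (mp (((g ^ m : L ≃ₐ[ℚ] L) : L →+* L).comp φ)) = P := by
    intro m
    ext x
    rw [Ideal.mem_comap, ← mp_smul, hP, Ideal.mem_comap]
    have h1 := h.pow_smul m (mp φ x)
    constructor
    · intro h2
      have h3 : (mp φ x) ^ ℓ ^ m ∈ Q := by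
        have h4 := Q.sub_mem h2 h1
        rwa [sub_sub_cancel] at h4
      exact hQp.mem_of_pow_mem _ h3
    · intro h2
      have h3 : (mp φ x) ^ ℓ ^ m ∈ Q := Q.pow_mem_of_mem h2 _ (pow_pos hℓ.pos _)
      have h4 := Q.add_mem h1 h3
      rwa [sub_add_cancel] at h4
  let θ : Option (Fin f) → (K →+* L) := fun o => match o with
    | none => ψ
    | some m => ((g ^ (m : ℕ) : L ≃ₐ[ℚ] L) : L →+* L).comp φ
  have hθP : ∀ o, Q.comap (mp (θ o)) = P := by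
    intro o
    cases o with
    | none => exact hφψ.symm
    | some m => exact hcomap m
  have hθinj : Function.Injective θ := by
    have hlt : ∀ m m' : Fin f, m < m' → θ (some m) ≠ θ (some m') := by
      intro m m' hlt heq
      have h1 : ((g ^ ((m' : ℕ) - m) : L ≃ₐ[ℚ] L) : L →+* L).comp φ = φ := by
        ext x
        have h2 : (g ^ (m : ℕ)) (φ x) = (g ^ (m' : ℕ)) (φ x) := RingHom.congr_fun heq x
        have h3 : g ^ (m' : ℕ) = g ^ (m : ℕ) * g ^ ((m' : ℕ) - m) := by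
          rw [← pow_add]
          congr 1
          have : (m : ℕ) < m' := hlt
          omega
        rw [h3] at h2
        exact ((g ^ (m : ℕ)).injective h2).symm
      have h2 := Nat.le_of_dvd (by have : (m : ℕ) < m' := hlt; omega) (dvd_of_fix h hℓ φ hf0 hf h1)
      have h3 := m'.2
      have h4 : (m : ℕ) < m' := hlt
      omega
    intro o o' hoo
    cases o with
    | none =>
      cases o' with
      | none => rfl
      | some m' => exact absurd hoo.symm (hcon m' m'.2)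
    | some m =>
      cases o' with
      | none => exact absurd hoo (hcon m m.2)
      | some m' =>
        rcases lt_trichotomy m m' with h1 | h1 | h1
        · exact absurd hoo (hlt m m' h1)
        · rw [h1]
        · exact absurd hoo.symm (hlt m' m h1)
  choose t ht using fun o => hlift (θ o) (hθP o)
  have htinj : Function.Injective t := by
    intro o o' hoo
    apply hθinj
    refine eq_of_congr hQp h.mem hℓ hK j hj fun x => ?_
    rw [← Ideal.Quotient.eq, ← ht, ← ht, hoo]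
  have h1 : Nat.card (Option (Fin f)) ≤ Nat.card ((𝓞 K ⧸ P) →ₐ[ZMod ℓ] (𝓞 L ⧸ Q)) :=
    Nat.card_le_card_of_injective t htinj
  have h2 := card_algHom_le_finrank (ZMod ℓ) (𝓞 K ⧸ P) (𝓞 L ⧸ Q)
  have h3 : Module.finrank (ZMod ℓ) (𝓞 K ⧸ P) = f := by
    have h4 := Module.natCard_eq_pow_finrank (K := ZMod ℓ) (V := 𝓞 K ⧸ P)
    rw [hf, Nat.card_zmod] at h4
    exact (Nat.pow_right_injective hℓ.two_le h4).symm
  have h4 : Nat.card (Option (Fin f)) = f + 1 := by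
    rw [Nat.card_eq_fintype_card, Fintype.card_option, Fintype.card_fin]
  omega

/-- There is an embedding with a given kernel. -/
theorem exists_comap (φ : K →+* L) {P : Ideal (𝓞 K)} (hP : P.IsPrime) :
    ∃ Q : Ideal (𝓞 L), Q.IsPrime ∧ Q.comap (mp φ) = P := by
  let _ := (mp φ).toAlgebra
  have h1 : Algebra.IsIntegral (𝓞 K) (𝓞 L) := by
    refine ⟨fun x => ?_⟩
    have h2 : IsIntegral ℤ x := Algebra.IsIntegral.isIntegral x
    obtain ⟨P, hPm, hP⟩ := h2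
    refine ⟨P.map (algebraMap ℤ (𝓞 K)), hPm.map _, ?_⟩
    rw [Polynomial.eval₂_map]
    have h3 : (algebraMap (𝓞 K) (𝓞 L)).comp (algebraMap ℤ (𝓞 K)) = algebraMap ℤ (𝓞 L) :=
      Subsingleton.elim _ _
    rw [h3]
    exact hP
  obtain ⟨Q, -, hQ, hQP⟩ := Ideal.exists_ideal_over_prime_of_isIntegral
    (R := 𝓞 K) (S := 𝓞 L) P ⊥ (by
      rw [← RingHom.ker_eq_comap_bot]
      have h3 : Function.Injective (algebraMap (𝓞 K) (𝓞 L)) := by
        intro x y hxy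
        apply RingOfIntegers.ext
        have h4 : φ x = φ y := congrArg (algebraMap (𝓞 L) L) hxy
        exact φ.injective h4
      rw [(RingHom.injective_iff_ker_eq_bot _).1 h3]
      exact bot_le)
  exact ⟨Q, hQ, hQP⟩

end Pool.Agent.T6.H22.DI
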