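import Pool.Agent.T6.H22.DI.Defs
import Pool.Agent.TH117.BL.Defs
import Pool.Agent.W495.FM.HomDefs

/-!
# Towers of abelian varieties over finite fields with isolated residue degrees: definitions
-/

set_option autoImplicit false

namespace Pool.Agent.T6.H22.DI

open NumberField Module Pool.Agent.W495.TA Pool.Agent.W495.FM Pool.Agent.TH117.BL

variable {p : ℕ} [Fact p.Prime] {ν : PadicAlgCl p ≃+* ℂ}

/-- The sets of factors of `Z` that are obtained from a set of factors of dimension at most three whose CM
fields have pairwise different Galois closures unless they are Galois over `ℚ` (for instance elliptic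
curves) by adding successively factors such that some prime number has an isolated residue degree
`2 ^ (k + 1)` in the CM field of the new factor and is thin in the CM fields of the previous ones. -/
inductive IsIsolatedTowerOf (Z : RedAV p ν) : Set Z.X.I → Prop
  | small (T : Set Z.X.I) : (∀ i ∈ T, finrank ℚ (Z.X.factor i).E ≤ 6) →
      (∀ i ∈ T, ∀ k ∈ T, i ≠ k → IntermediateField.normalClosure ℚ (Z.X.factor i).E ℂ =
        IntermediateField.normalClosure ℚ (Z.X.factor k).E ℂ → IsGalois ℚ (Z.X.factor i).E) →
      IsIsolatedTowerOf Z T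
  | add (i : Z.X.I) (T : Set Z.X.I) (ℓ k : ℕ) : IsIsolatedTowerOf Z T → i ∉ T → ℓ.Prime →
      IsIsolated ℓ k (Z.X.factor i).E → (∀ j ∈ T, IsThin ℓ k (Z.X.factor j).E) →
      IsIsolatedTowerOf Z (insert i T)

/-- The groups of motivic and of `ℓ`-adic homology of `X` are those of an abelian variety `Y` that is,
over an algebraic closure, isogenous to a product of a supersingular abelian variety and of powers of
the factors of a tower `Z`. -/
def IsIsolatedTowerAbelian {Ω V : Type} [Field Ω] [CharZero Ω] (p : ℕ) [Fact p.Prime]
    (ν : PadicAlgCl p ≃+* ℂ) (T : Homology Ω V) (X : V) : Prop :=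
  ∃ (Z Y : RedAV p ν) (C : Cycles Ω Y) (M : Motivic C) (g : ℕ), IsIsolatedTowerOf Z Set.univ ∧
    IsPowersTimesSupersingular Z Y ∧ IsChow C ∧ IsMotivic M ∧ IsAbelian T X M g

end Pool.Agent.T6.H22.DI
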