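import Pool.Agent.T6.H22.DI.Rel
import Pool.Agent.T6.H22.DI.RedDefs
import Pool.Agent.T6.H22.IT.Step

/-!
# The relations between the Frobenius eigenvalues in a tower: the step
-/

set_option autoImplicit false

namespace Pool.Agent.T6.H22.DI

open NumberField Module Pool.Agent.W495.TA Pool.Agent.TH117 Pool.Agent.TH117.BL
  Pool.Agent.T6.H36.RT Polynomial

variable {p : ℕ} [Fact p.Prime] {ν : PadicAlgCl p ≃+* ℂ} {Z : RedAV p ν}

/-- The numbers `α / ᾱ`. -/
noncomputable def uu (Z : RedAV p ν) (w : WW (fun i => (Z.X.factor i).E)) : Additive ℂˣ :=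
  Additive.ofMul (IT.U Z w)

theorem uu_system (Z : RedAV p ν) : IsSystem (uu Z) := by
  refine ⟨fun w => ?_, fun σ w => ?_⟩
  · have h1 : IT.U Z (cj w) = (IT.U Z w)⁻¹ := IT.U_cj w
    exact congrArg Additive.ofMul h1
  · obtain ⟨i, φ⟩ := w
    exact IT.act_U σ i φ

theorem rel_torsion {e : Emb Z → ℕ} (he : IsRel Z e) :
    IsOfFinAddOrder (∑ w, (e w : ℤ) • uu Z w) := by
  obtain ⟨s, hs, hrel⟩ := he
  rw [isOfFinAddOrder_iff_nsmul_eq_zero]
  refine ⟨s, hs, ?_⟩
  have h1 : ∑ w, (e w : ℤ) • uu Z w = Additive.ofMul (∏ w : Emb Z, IT.U Z w ^ e w) := by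
    rw [ofMul_prod]
    refine Finset.sum_congr rfl fun w _ => ?_
    rw [natCast_zsmul, ofMul_pow]
    rfl
  rw [h1, ← ofMul_pow]
  apply congrArg Additive.ofMul (a₂ := (1 : ℂˣ))
  ext
  rw [Units.val_pow_eq_pow_val, Units.coe_prod, Units.val_one]
  have h2 : ∀ w : Emb Z, ((IT.U Z w ^ e w : ℂˣ) : ℂ) * ((p : ℂ) ^ Z.a) ^ e w =
      (eig Z w ^ e w) ^ 2 := by
    intro w
    rw [Units.val_pow_eq_pow_val]
    simp only [IT.U, Units.val_mk0]
    rw [← eig_cj w, ← mul_pow, ← pow_mul, mul_comm (e w) 2, pow_mul]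
    congr 1
    have h3 := eig_ne (cj w)
    field_simp
  have h3 : (∏ w : Emb Z, ((IT.U Z w ^ e w : ℂˣ) : ℂ)) * ((p : ℂ) ^ Z.a) ^ ∑ w, e w =
      (∏ w, eig Z w ^ e w) ^ 2 := by
    rw [← Finset.prod_pow_eq_pow_sum, ← Finset.prod_mul_distrib, ← Finset.prod_pow]
    exact Finset.prod_congr rfl fun w _ => h2 w
  have h4 := congrArg (fun x => x ^ s) h3
  simp only [mul_pow, ← pow_mul] at h4
  rw [hrel, ← pow_mul, show Z.a * (∑ w, e w) * s = Z.a * (s * ∑ w, e w) by ring] at h4
  exact mul_right_cancel₀ (pow_ne_zero _ (Nat.cast_ne_zero.2 (Fact.out : p.Prime).ne_zero))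
    (h4.trans (one_mul _).symm)

open Classical in
/-- **The step.** -/
theorem elementary_insert {i : Z.X.I} {T : Set Z.X.I} (hT : HasElementaryRelationsOn Z T)
    (hiT : i ∉ T) {ℓ k : ℕ} (hℓ : ℓ.Prime) (hi : IsIsolated ℓ k (Z.X.factor i).E)
    (hthin : ∀ j ∈ T, IsThin ℓ k (Z.X.factor j).E) : HasElementaryRelationsOn Z (insert i T) := by
  intro e he hsupp
  set e₁ : Emb Z → ℕ := fun w => if w.1 = i then e w else 0 with he₁
  set e₂ : Emb Z → ℕ := fun w => if w.1 = i then 0 else e w with he₂
  have hadd : ∀ w, e w = e₁ w + e₂ w := by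
    intro w
    simp only [he₁, he₂]
    by_cases h1 : w.1 = i
    · rw [if_pos h1, if_pos h1, add_zero]
    · rw [if_neg h1, if_neg h1, zero_add]
  have key : IsRel Z e₁ ∧ (fun w => (e₁ w : ℤ)) ∈ AddSubgroup.closure
      {d : Emb Z → ℤ | ∃ n : Emb Z → ℕ, IsRel Z n ∧ IsElementary Z n ∧ ∀ w, d w = n w} := by
    rcases dichotomy (E := fun j => (Z.X.factor j).E) (uu_system Z) hℓ hi hthin hiT with
      hsym | htor
    · have hsym' : ∀ φ : (Z.X.factor i).E →+* ℂ,
          e ⟨i, ComplexEmbedding.conjugate φ⟩ = e ⟨i, φ⟩ := by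
        intro φ
        have h1 := hsym (fun w => (e w : ℤ)) (fun w hw => hsupp w (by
          intro h0
          apply hw
          simp only [h0, Nat.cast_zero])) (rel_torsion he) φ
        exact_mod_cast h1
      have hsym₁ : ∀ w, e₁ (cj w) = e₁ w := by
        rintro ⟨j, φ⟩
        simp only [he₁]
        have h1 : (cj ⟨j, φ⟩ : Emb Z).1 = j := rfl
        rw [h1]
        by_cases h2 : j = i
        · subst h2
          rw [if_pos rfl, if_pos rfl]
          exact hsym' φ
        · rw [if_neg h2, if_neg h2]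
      exact ⟨IT.sym_rel hsym₁, sym_mem _ e₁ rfl hsym₁⟩
    · -- the factor is supersingular
      have hex : ∀ w : Emb Z, ∃ m : ℕ, 0 < m ∧
          (w.1 = i → (eig Z w ^ 2) ^ m = ((p : ℂ) ^ Z.a) ^ m) := by
        rintro ⟨j, φ⟩
        by_cases hj : j = i
        · subst hj
          obtain ⟨m, hm, h1⟩ := isOfFinAddOrder_iff_nsmul_eq_zero.1 (htor φ)
          refine ⟨m, hm, fun _ => ?_⟩
          have h3 : (IT.U Z ⟨j, φ⟩) ^ m = 1 := h1
          have h4 : (eig Z ⟨j, φ⟩ / eig Z (cj ⟨j, φ⟩)) ^ m = 1 := by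
            have h5 := congrArg (Units.val) h3
            rw [Units.val_pow_eq_pow_val] at h5
            exact h5
          rw [← eig_cj (⟨j, φ⟩ : Emb Z), pow_two, mul_pow, mul_pow]
          rw [div_pow, div_eq_one_iff_eq (pow_ne_zero _ (eig_ne _))] at h4
          rw [← h4]
        · exact ⟨1, one_pos, fun h => absurd h hj⟩
      choose mm hmm hmeq using hex
      set m := ∏ w, mm w with hm
      have hm0 : 0 < m := Finset.prod_pos fun w _ => hmm w
      have htor' : ∀ w : Emb Z, w.1 = i → (eig Z w ^ 2) ^ m = ((p : ℂ) ^ Z.a) ^ m := by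
        intro w hw
        obtain ⟨c, hc⟩ : mm w ∣ m := Finset.dvd_prod_of_mem mm (Finset.mem_univ w)
        rw [hc, pow_mul, pow_mul, hmeq w hw]
      constructor
      · refine ⟨m, hm0, ?_⟩
        rw [← Finset.prod_pow, pow_mul, ← Finset.prod_pow_eq_pow_sum]
        refine Finset.prod_congr rfl fun w _ => ?_
        by_cases h1 : w.1 = i
        · rw [← pow_mul, ← htor' w h1, ← pow_mul, ← pow_mul]
          congr 1
          ring
        · have h2 : e₁ w = 0 := by
            simp only [he₁]
            rw [if_neg h1]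
          rw [h2]
          simp
      · have h1 : (fun w => (e₁ w : ℤ)) =
            ∑ u : Emb Z, e₁ u • (fun w => if w = u then (1 : ℤ) else 0) := by
          funext w
          rw [Finset.sum_apply]
          simp
        rw [h1]
        refine AddSubgroup.sum_mem _ fun u _ => ?_
        by_cases h2 : u.1 = i
        · have hpr : ∏ w, eig Z w ^ (if w = u then 1 else 0) = eig Z u := by
            rw [Finset.prod_eq_single u]
            · rw [if_pos rfl, pow_one]
            · intro w _ hw
              rw [if_neg hw, pow_zero]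
            · intro h4
              exact absurd (Finset.mem_univ _) h4
          have hsm : ∑ w : Emb Z, (if w = u then 1 else 0 : ℕ) = 1 := by
            rw [Finset.sum_ite_eq' Finset.univ u, if_pos (Finset.mem_univ _)]
          have hrel : IsRel Z (fun w => if w = u then 1 else 0) := by
            refine ⟨m, hm0, ?_⟩
            rw [hpr, hsm, mul_one, pow_mul]
            exact htor' u h2
          have hel : IsElementary Z (fun w => if w = u then 1 else 0) := by
            left
            rw [hsm]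
            norm_num
          have hmem : (fun w => if w = u then (1 : ℤ) else 0) ∈ AddSubgroup.closure
              {d : Emb Z → ℤ | ∃ n : Emb Z → ℕ, IsRel Z n ∧ IsElementary Z n ∧ ∀ w, d w = n w} :=
            AddSubgroup.subset_closure ⟨fun w => if w = u then 1 else 0, hrel, hel, fun w => by
              by_cases h3 : w = u <;> simp [h3]⟩
          exact AddSubgroup.nsmul_mem _ hmem _
        · have h3 : e₁ u = 0 := by
            simp only [he₁]
            rw [if_neg h2]
          rw [h3, zero_smul]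
          exact AddSubgroup.zero_mem _
  have hrel₂ := IT.rel_sub he key.1 hadd
  have h2 := hT e₂ hrel₂ (by
    intro w hw
    have h3 : w.1 ≠ i := by
      intro h4
      apply hw
      simp only [he₂]
      rw [if_pos h4]
    have h4 : e w ≠ 0 := by
      intro h5
      apply hw
      simp only [he₂]
      rw [if_neg h3, h5]
    rcases hsupp w h4 with h5 | h5
    · exact absurd h5 h3
    · exact h5)
  have h3 : (fun w => (e w : ℤ)) = (fun w => (e₁ w : ℤ)) + fun w => (e₂ w : ℤ) := by
    funext w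
    rw [Pi.add_apply, hadd]
    push_cast
    rfl
  rw [h3]
  exact AddSubgroup.add_mem _ key.2 h2

theorem elementary_small {T : Set Z.X.I} (hT : ∀ i ∈ T, finrank ℚ (Z.X.factor i).E ≤ 6)
    (hT' : ∀ i ∈ T, ∀ k ∈ T, i ≠ k → IntermediateField.normalClosure ℚ (Z.X.factor i).E ℂ =
      IntermediateField.normalClosure ℚ (Z.X.factor k).E ℂ → IsGalois ℚ (Z.X.factor i).E) :
    HasElementaryRelationsOn Z T := by
  refine elementary_good (Or.inr ⟨hT, fun i hi k hk h => ?_⟩)
  by_cases hik : i = k
  · subst hik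
    exact Or.inr (Or.inr (Or.inr ⟨RingEquiv.refl _, 1, Nat.one_pos, rfl⟩))
  · exact Or.inl (hT' i hi k hk hik h)

theorem elementary_tower {T : Set Z.X.I} (h : IsIsolatedTowerOf Z T) :
    HasElementaryRelationsOn Z T := by
  induction h with
  | small T hT hT' => exact elementary_small hT hT'
  | add i T ℓ k _ hiT hℓ hi hthin ih => exact elementary_insert ih hiT hℓ hi hthin

end Pool.Agent.T6.H22.DI
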