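import Pool.Agent.T6.H22.DI.Rel
import Pool.Agent.TH170.FT.Tate

/-!
# The Tate conjecture for abelian varieties over number fields with isolated residue degrees
-/

set_option autoImplicit false

namespace Pool.Agent.T6.H22.DI

open NumberField Module Pool.Agent.H204R3.GP Pool.Agent.TH170

variable {p a : ℕ} {I : Type} [Fintype I] {K : I → Type} [∀ i, Field (K i)]
  [∀ i, NumberField (K i)] [∀ i, IsCMField (K i)] {π : ∀ i, K i}

theorem ev_conj (hweil : ∀ i, π i * IsCMField.complexConj (K i) (π i) = (p : K i) ^ a)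
    (w : WW K) : w.2 (π w.1) * (cw w).2 (π w.1) = (p : ℂ) ^ a := by
  obtain ⟨i, φ⟩ := w
  change φ (π i) * ComplexEmbedding.conjugate φ (π i) = _
  rw [ComplexEmbedding.conjugate_coe_eq, ← IsCMField.complexEmbedding_complexConj, ← map_mul,
    hweil, map_pow, map_natCast]

theorem ev_ne (hp : p ≠ 0) (hweil : ∀ i, π i * IsCMField.complexConj (K i) (π i) = (p : K i) ^ a)
    (w : WW K) : w.2 (π w.1) ≠ 0 := by
  intro h0
  have h1 := ev_conj hweil w
  rw [h0, zero_mul] at h1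
  exact pow_ne_zero a (Nat.cast_ne_zero.2 hp) h1.symm

/-- The numbers `α / ᾱ`. -/
noncomputable def vv (hp : p ≠ 0)
    (hweil : ∀ i, π i * IsCMField.complexConj (K i) (π i) = (p : K i) ^ a) (w : WW K) :
    Additive ℂˣ :=
  Additive.ofMul (Units.mk0 (w.2 (π w.1) / (cw w).2 (π w.1))
    (div_ne_zero (ev_ne hp hweil w) (ev_ne hp hweil (cw w))))

theorem vv_system (hp : p ≠ 0)
    (hweil : ∀ i, π i * IsCMField.complexConj (K i) (π i) = (p : K i) ^ a) :
    IsSystem (vv hp hweil) := by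
  refine ⟨fun w => ?_, fun σ w => ?_⟩
  · have h1 : (Units.mk0 ((cw w).2 (π (cw w).1) / (cw (cw w)).2 (π (cw w).1))
        (div_ne_zero (ev_ne hp hweil (cw w)) (ev_ne hp hweil (cw (cw w)))) : ℂˣ) =
        (Units.mk0 (w.2 (π w.1) / (cw w).2 (π w.1))
          (div_ne_zero (ev_ne hp hweil w) (ev_ne hp hweil (cw w))))⁻¹ := by
      ext
      rw [Units.val_inv_eq_inv_val, Units.val_mk0, Units.val_mk0, inv_div]
      obtain ⟨i, φ⟩ := w
      change ComplexEmbedding.conjugate φ (π i) /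
        ComplexEmbedding.conjugate (ComplexEmbedding.conjugate φ) (π i) =
          ComplexEmbedding.conjugate φ (π i) / φ (π i)
      rw [ComplexEmbedding.involutive_conjugate _ φ]
    exact congrArg Additive.ofMul h1
  · obtain ⟨i, φ⟩ := w
    have h1 : Units.map (σ : ℂ →* ℂ) (Units.mk0 (φ (π i) / ComplexEmbedding.conjugate φ (π i))
        (div_ne_zero (ev_ne hp hweil ⟨i, φ⟩) (ev_ne hp hweil (cw ⟨i, φ⟩)))) =
        Units.mk0 (IT.cmp σ φ (π i) / ComplexEmbedding.conjugate (IT.cmp σ φ) (π i))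
          (div_ne_zero (ev_ne hp hweil ⟨i, IT.cmp σ φ⟩) (ev_ne hp hweil (cw ⟨i, IT.cmp σ φ⟩))) := by
      ext
      change σ (φ (π i) / ComplexEmbedding.conjugate φ (π i)) =
        IT.cmp σ φ (π i) / ComplexEmbedding.conjugate (IT.cmp σ φ) (π i)
      rw [map_div₀, ← IT.cmp_conj]
      rfl
    exact congrArg Additive.ofMul h1

/-- The exponents of the relations in a tower are symmetric. -/
theorem tower_symm (hp : p ≠ 0)
    (hweil : ∀ i, π i * IsCMField.complexConj (K i) (π i) = (p : K i) ^ a)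
    (hss : ∀ (i : I) (s : ℕ), 0 < s → π i ^ (2 * s) ≠ (p : K i) ^ (a * s)) {S : Set I}
    (hS : IsIsolatedTower K S) :
    ∀ e : WW K → ℤ, (∀ w, e w ≠ 0 → w.1 ∈ S) → IsOfFinAddOrder (∑ w, e w • vv hp hweil w) →
      ∀ w, e (cw w) = e w := by
  classical
  induction hS with
  | empty =>
    intro e he _ w
    have h0 : ∀ w, e w = 0 := fun w => by
      by_contra h
      exact he w h
    rw [h0, h0]
  | insert i S ℓ k hS hℓ hi hthin ih =>
    intro e hsupp he
    by_cases hiS : i ∈ S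
    · rw [Set.insert_eq_of_mem hiS] at hsupp
      exact ih e hsupp he
    have hsym : ∀ φ : K i →+* ℂ, e ⟨i, ComplexEmbedding.conjugate φ⟩ = e ⟨i, φ⟩ := by
      rcases dichotomy (vv_system hp hweil) hℓ hi hthin hiS with h | h
      · exact h e hsupp he
      · exfalso
        obtain ⟨φ⟩ : Nonempty (K i →+* ℂ) := inferInstance
        obtain ⟨m, hm, h1⟩ := isOfFinAddOrder_iff_nsmul_eq_zero.1 (h φ)
        have h2 : (φ (π i) / ComplexEmbedding.conjugate φ (π i)) ^ m = 1 := by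
          have h3 : (Units.mk0 (φ (π i) / ComplexEmbedding.conjugate φ (π i))
            (div_ne_zero (ev_ne hp hweil ⟨i, φ⟩) (ev_ne hp hweil (cw ⟨i, φ⟩)))) ^ m = 1 := h1
          have h5 := congrArg (Units.val) h3
          rw [Units.val_pow_eq_pow_val] at h5
          exact h5
        have h3 := ev_conj hweil (⟨i, φ⟩ : WW K)
        change φ (π i) * ComplexEmbedding.conjugate φ (π i) = _ at h3
        have h4 : ComplexEmbedding.conjugate φ (π i) ≠ 0 := ev_ne hp hweil (cw ⟨i, φ⟩)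
        rw [div_pow, div_eq_one_iff_eq (pow_ne_zero _ h4)] at h2
        apply hss i m hm
        apply φ.injective
        rw [map_pow, map_pow, map_natCast, pow_mul, pow_mul, ← h3, pow_two, mul_pow, mul_pow, ← h2]
    -- the rest
    set e₂ : WW K → ℤ := fun w => if w.1 = i then 0 else e w with he₂
    have h1 : IsOfFinAddOrder (∑ w, e₂ w • vv hp hweil w) := by
      have h2 : ∑ w, e w • vv hp hweil w = ∑ w, e₂ w • vv hp hweil w +
          ∑ φ : K i →+* ℂ, e ⟨i, φ⟩ • vv hp hweil ⟨i, φ⟩ := by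
        rw [Fintype.sum_sigma, Fintype.sum_sigma,
          ← Finset.add_sum_erase Finset.univ _ (Finset.mem_univ i),
          ← Finset.add_sum_erase Finset.univ (fun j => ∑ φ : K j →+* ℂ, e₂ ⟨j, φ⟩ •
            vv hp hweil ⟨j, φ⟩) (Finset.mem_univ i)]
        have h3 : ∑ φ : K i →+* ℂ, e₂ ⟨i, φ⟩ • vv hp hweil ⟨i, φ⟩ = 0 := by
          refine Finset.sum_eq_zero fun φ _ => ?_
          simp only [he₂, if_true, zero_zsmul]
        rw [h3, zero_add, add_comm]
        congr 1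
        refine Finset.sum_congr rfl fun j hj => Finset.sum_congr rfl fun φ _ => ?_
        simp only [he₂]
        rw [if_neg (Finset.ne_of_mem_erase hj)]
      have h3 : (2 : ℤ) • ∑ φ : K i →+* ℂ, e ⟨i, φ⟩ • vv hp hweil ⟨i, φ⟩ = 0 := by
        have h4 : ∑ φ : K i →+* ℂ, e ⟨i, φ⟩ • vv hp hweil ⟨i, φ⟩ =
            - ∑ φ : K i →+* ℂ, e ⟨i, φ⟩ • vv hp hweil ⟨i, φ⟩ := by
          let ec : (K i →+* ℂ) ≃ (K i →+* ℂ) :=
            (ComplexEmbedding.involutive_conjugate (K i)).toPerm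
          conv_lhs => rw [← Equiv.sum_comp ec]
          rw [← Finset.sum_neg_distrib]
          refine Finset.sum_congr rfl fun φ _ => ?_
          have h5 : vv hp hweil ⟨i, ec φ⟩ = - vv hp hweil ⟨i, φ⟩ :=
            (vv_system hp hweil).conj ⟨i, φ⟩
          have h6 : e ⟨i, ec φ⟩ = e ⟨i, φ⟩ := hsym φ
          rw [h5, h6, zsmul_neg]
        rw [two_zsmul]
        nth_rewrite 1 [h4]
        exact neg_add_cancel _
      have h4 : IsOfFinAddOrder (∑ φ : K i →+* ℂ, e ⟨i, φ⟩ • vv hp hweil ⟨i, φ⟩) := by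
        apply IT.IsOfFin.zsmul_cancel two_ne_zero
        rw [h3]
        exact isOfFinAddOrder_iff_nsmul_eq_zero.2 ⟨1, one_pos, smul_zero 1⟩
      have h5 : ∑ w, e₂ w • vv hp hweil w = ∑ w, e w • vv hp hweil w +
          - ∑ φ : K i →+* ℂ, e ⟨i, φ⟩ • vv hp hweil ⟨i, φ⟩ := by
        rw [h2, add_neg_cancel_right]
      rw [h5]
      exact (AddCommute.all _ _).isOfFinAddOrder_add he h4.neg
    have h2 := ih e₂ (fun w hw => by
      have h3 : w.1 ≠ i := by
        intro h4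
        apply hw
        simp only [he₂]
        rw [if_pos h4]
      have h4 : e w ≠ 0 := by
        intro h5
        apply hw
        simp only [he₂]
        rw [if_neg h3, h5]
      exact (hsupp w h4).resolve_left h3) h1
    rintro ⟨j, φ⟩
    by_cases hj : j = i
    · subst hj
      exact hsym φ
    · have h3 := h2 ⟨j, φ⟩
      have h4 : ∀ ψ : K j →+* ℂ, e₂ ⟨j, ψ⟩ = e ⟨j, ψ⟩ := fun ψ => by
        simp only [he₂]
        rw [if_neg hj]
      change e₂ ⟨j, ComplexEmbedding.conjugate φ⟩ = e₂ ⟨j, φ⟩ at h3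
      rw [h4, h4] at h3
      exact h3

/-- The conjugates of the Weil numbers of a tower have no multiplicative relations. -/
theorem neat_of_tower (hp : p ≠ 0)
    (hweil : ∀ i, π i * IsCMField.complexConj (K i) (π i) = (p : K i) ^ a)
    (hss : ∀ (i : I) (s : ℕ), 0 < s → π i ^ (2 * s) ≠ (p : K i) ^ (a * s))
    (hS : IsIsolatedTower K Set.univ) {L : Type} [Field L] [NumberField L] [IsGalois ℚ L]
    (j : L →+* ℂ) : Neat p a π L := by
  classical
  intro m M hM J hprod y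
  let ν : (Σ i, (K i →+* L)) → WW K := fun x => ⟨x.1, j.comp x.2⟩
  have hν : Function.Injective ν := by
    rintro ⟨i, φ⟩ ⟨i', ψ⟩ h
    simp only [ν, Sigma.mk.injEq] at h
    obtain ⟨rfl, h⟩ := h
    have h1 : j.comp φ = j.comp ψ := eq_of_heq h
    have h2 : φ = ψ := RingHom.ext fun x => j.injective (RingHom.congr_fun h1 x)
    rw [h2]
  have hνbar : ∀ x, ν (bar x) = cw (ν x) := by
    rintro ⟨i, φ⟩
    refine congrArg (Sigma.mk i) (RingHom.ext fun x => ?_)
    change j (φ (IsCMField.complexConj (K i) x)) = ComplexEmbedding.conjugate (j.comp φ) x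
    rw [ComplexEmbedding.conjugate_coe_eq, ← IsCMField.complexEmbedding_complexConj]
    rfl
  have hval : ∀ x, (ν x).2 (π (ν x).1) = j (val π x) := fun x => rfl
  set e : WW K → ℤ := fun w => (M : ℤ) * ((Finset.univ.filter (fun l => ν (J l) = w)).card : ℤ)
    with he
  have hsum : ∑ w, e w • vv hp hweil w = ∑ l, (M : ℤ) • vv hp hweil (ν (J l)) := by
    have h1 : ∀ w, e w • vv hp hweil w =
        ∑ l ∈ Finset.univ.filter (fun l => ν (J l) = w), (M : ℤ) • vv hp hweil (ν (J l)) := by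
      intro w
      rw [Finset.sum_congr rfl (fun l hl => by rw [(Finset.mem_filter.1 hl).2] :
        ∀ l ∈ Finset.univ.filter (fun l => ν (J l) = w), (M : ℤ) • vv hp hweil (ν (J l)) =
          (M : ℤ) • vv hp hweil w), Finset.sum_const]
      simp only [he]
      rw [mul_comm, mul_zsmul, natCast_zsmul (vv hp hweil w) M, natCast_zsmul, ← natCast_zsmul]
    simp only [h1]
    exact Finset.sum_fiberwise _ _ _
  have hzero : ∑ l, (M : ℤ) • vv hp hweil (ν (J l)) = 0 := by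
    have h1 : ∑ l, (M : ℤ) • vv hp hweil (ν (J l)) =
        Additive.ofMul (∏ l, (Units.mk0 ((ν (J l)).2 (π (ν (J l)).1) /
          (cw (ν (J l))).2 (π (ν (J l)).1))
            (div_ne_zero (ev_ne hp hweil (ν (J l))) (ev_ne hp hweil (cw (ν (J l))))) : ℂˣ) ^ M) := by
      rw [ofMul_prod]
      refine Finset.sum_congr rfl fun l _ => ?_
      rw [natCast_zsmul, ofMul_pow]
      rfl
    rw [h1]
    apply congrArg Additive.ofMul (a₂ := (1 : ℂˣ))
    ext
    rw [Units.coe_prod, Units.val_one]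
    have h2 : ∏ l, ((ν (J l)).2 (π (ν (J l)).1)) ^ M = ((p : ℂ) ^ a) ^ (m * M) := by
      have h3 := congrArg j hprod
      rw [map_prod, map_pow, map_pow, map_natCast] at h3
      rw [← h3]
      exact Finset.prod_congr rfl fun l _ => by rw [hval, map_pow]
    have h3 : (∏ l, ((ν (J l)).2 (π (ν (J l)).1)) ^ M) *
        ∏ l, ((cw (ν (J l))).2 (π (ν (J l)).1)) ^ M = ((p : ℂ) ^ a) ^ (2 * (m * M)) := by
      rw [← Finset.prod_mul_distrib]
      have h4 : ∀ l, ((ν (J l)).2 (π (ν (J l)).1)) ^ M * ((cw (ν (J l))).2 (π (ν (J l)).1)) ^ M =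
          ((p : ℂ) ^ a) ^ M := fun l => by rw [← mul_pow, ev_conj hweil]
      simp only [h4]
      rw [Finset.prod_const, Finset.card_univ, Fintype.card_prod, Fintype.card_fin,
        Fintype.card_fin, ← pow_mul]
      congr 1
      ring
    have hpa : ((p : ℂ) ^ a) ≠ 0 := pow_ne_zero _ (Nat.cast_ne_zero.2 hp)
    have h4 : ∏ l, ((cw (ν (J l))).2 (π (ν (J l)).1)) ^ M = ((p : ℂ) ^ a) ^ (m * M) := by
      rw [h2, two_mul, pow_add] at h3
      exact mul_left_cancel₀ (pow_ne_zero _ hpa) h3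
    have h5 : ∀ l, ((Units.mk0 ((ν (J l)).2 (π (ν (J l)).1) /
          (cw (ν (J l))).2 (π (ν (J l)).1))
            (div_ne_zero (ev_ne hp hweil (ν (J l))) (ev_ne hp hweil (cw (ν (J l))))) ^ M : ℂˣ) : ℂ) =
        ((ν (J l)).2 (π (ν (J l)).1)) ^ M / ((cw (ν (J l))).2 (π (ν (J l)).1)) ^ M := by
      intro l
      rw [Units.val_pow_eq_pow_val, Units.val_mk0, div_pow]
    simp only [h5]
    rw [Finset.prod_div_distrib, h2, h4, div_self (pow_ne_zero _ hpa)]
  have h1 := tower_symm hp hweil hss hS e (fun w _ => Set.mem_univ _) (by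
    rw [hsum, hzero]
    exact isOfFinAddOrder_iff_nsmul_eq_zero.2 ⟨1, one_pos, smul_zero 1⟩) (ν y)
  simp only [he] at h1
  have h2 : (M : ℤ) ≠ 0 := by exact_mod_cast hM.ne'
  have h3 := mul_left_cancel₀ h2 h1
  have h4 : ∀ x, Finset.univ.filter (fun l => ν (J l) = ν x) =
      Finset.univ.filter (fun l => J l = x) := fun x =>
    Finset.filter_congr fun l _ => hν.eq_iff
  rw [← hνbar, h4, h4] at h3
  exact_mod_cast h3.symm

variable {ℓ : ℕ} [Fact ℓ.Prime] {V Γ : Type} [AddCommGroup V] [Module ℚ_[ℓ] V]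
  [FiniteDimensional ℚ_[ℓ] V] [Group Γ]
  {ρ : Representation ℚ_[ℓ] Γ V} {χ : Γ →* ℚ_[ℓ]} {ω : V →ₗ[ℚ_[ℓ]] V →ₗ[ℚ_[ℓ]] ℚ_[ℓ]}
  {D : ∀ n : ℕ, Set ((Fin n → V) [⋀^Fin 2]→ₗ[ℚ_[ℓ]] ℚ_[ℓ])}
  {C : ∀ n m : ℕ, Set ((Fin n → V) [⋀^Fin m × Fin 2]→ₗ[ℚ_[ℓ]] ℚ_[ℓ])}

/-- **The Tate conjecture for the powers of `A`.** -/
theorem tate_of_tower [Fact p.Prime] (ha : 0 < a)
    (hgen : ∀ i, IntermediateField.adjoin ℚ {π i} = ⊤)
    (hweil : ∀ i, π i * IsCMField.complexConj (K i) (π i) = (p : K i) ^ a)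
    (hss : ∀ (i : I) (s : ℕ), 0 < s → π i ^ (2 * s) ≠ (p : K i) ^ (a * s))
    (hS : IsIsolatedTower K Set.univ)
    (hR : FT.IsTateModule ρ χ ω) (hC : FT.IsCycleClasses ρ χ D C) (hF : FT.HasFrobenius ρ χ p a π)
    (n m : ℕ) (f : (Fin n → V) [⋀^Fin m × Fin 2]→ₗ[ℚ_[ℓ]] ℚ_[ℓ]) (hf : IsTateClass ρ χ m f) :
    f ∈ Submodule.span ℚ_[ℓ] (C n m) := by
  obtain ⟨L, hL1, hL2, j, h⟩ := Pool.Agent.H204R3.CM.exists_galois K
  have h1 := FT.generated ha hgen hweil j h
    (neat_of_tower (Fact.out : p.Prime).ne_zero hweil hss hS j) hR hF n m f hf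
  refine Submodule.span_le.2 ?_ h1
  rintro g ⟨B, hB, hg⟩
  exact FT.wedge_mem (fun B g => hC.intersection n m B g) (fun l => hC.faltings n (B l) (hB l)) hg

end Pool.Agent.T6.H22.DI
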