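import Pool.Agent.T6.H22.DI.Aut
import Pool.Agent.T6.H22.IT.Pol
import Pool.Agent.H204R3.CM.Disc

/-!
# Multiplicative relations in families of CM fields
-/

set_option autoImplicit false

namespace Pool.Agent.T6.H22.DI

open NumberField Module Polynomial Pool.Agent.T6.H22.IT

variable {ι : Type} (E : ι → Type) [∀ i, Field (E i)]

/-- The pairs of an index and a complex embedding. -/
abbrev WW : Type := Σ i, E i →+* ℂ

variable {E}

/-- The action of automorphisms. -/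
def mv (σ : ℂ ≃+* ℂ) (w : WW E) : WW E := ⟨w.1, cmp σ w.2⟩

/-- The complex conjugation. -/
def cw (w : WW E) : WW E := ⟨w.1, ComplexEmbedding.conjugate w.2⟩

theorem mv_inv (σ : ℂ ≃+* ℂ) (w : WW E) : mv σ (mv σ⁻¹ w) = w := by
  obtain ⟨i, φ⟩ := w
  have h : cmp σ (cmp σ⁻¹ φ) = φ := by
    rw [← cmp_mul, mul_inv_cancel, cmp_one]
  exact congrArg (Sigma.mk i) h

theorem mv_inv' (σ : ℂ ≃+* ℂ) (w : WW E) : mv σ⁻¹ (mv σ w) = w := by
  obtain ⟨i, φ⟩ := w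
  have h : cmp σ⁻¹ (cmp σ φ) = φ := by
    rw [← cmp_mul, inv_mul_cancel, cmp_one]
  exact congrArg (Sigma.mk i) h

/-- The action as a permutation. -/
def mvEquiv (σ : ℂ ≃+* ℂ) : WW E ≃ WW E := ⟨mv σ, mv σ⁻¹, mv_inv' σ, mv_inv σ⟩

theorem cw_cw (w : WW E) : cw (cw w) = w := by
  obtain ⟨i, φ⟩ := w
  exact congrArg (Sigma.mk i) (ComplexEmbedding.involutive_conjugate _ φ)

/-- The action of an automorphism on the multiplicative group. -/
noncomputable def act (σ : ℂ ≃+* ℂ) : Module.End ℤ (Additive ℂˣ) :=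
  (MonoidHom.toAdditive (Units.map (σ : ℂ →* ℂ))).toIntLinearMap

/-- A system of numbers, indexed by the embeddings. -/
structure IsSystem (u : WW E → Additive ℂˣ) : Prop where
  conj : ∀ w, u (cw w) = - u w
  act : ∀ (σ : ℂ ≃+* ℂ) (w : WW E), act σ (u w) = u (mv σ w)

theorem IsSystem.act_pow {u : WW E → Additive ℂˣ} (hu : IsSystem u) (σ : ℂ ≃+* ℂ) (i : ι)
    (φ : E i →+* ℂ) (m : ℕ) :
    (DI.act σ ^ m) (u ⟨i, φ⟩) = u ⟨i, cmp (σ ^ m) φ⟩ := by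
  induction m with
  | zero => rfl
  | succ m ih =>
    rw [pow_succ', Module.End.mul_apply, ih, hu.act, cmp_pow_succ]
    rfl

variable [Fintype ι] [∀ i, NumberField (E i)] [∀ i, IsCMField (E i)]

/-- The part of a relation on an isolated cycle. -/
theorem sum_orbit {u : WW E → Additive ℂˣ} (hu : IsSystem u) {i : ι} {T : Set ι}
    {τ : ℂ ≃+* ℂ} {O : Set (E i →+* ℂ)} [DecidablePred (· ∈ O)]
    (h1 : ∀ φ ∈ O, cmp τ φ = ComplexEmbedding.conjugate φ) (h2 : ∀ φ ∉ O, cmp τ φ = φ)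
    (h3 : ∀ j ∈ T, ∀ ψ : E j →+* ℂ, cmp τ ψ = ψ) {e : WW E → ℤ}
    (hsupp : ∀ w, e w ≠ 0 → w.1 ∈ insert i T) (hiT : i ∉ T)
    (he : IsOfFinAddOrder (∑ w, e w • u w)) :
    IsOfFinAddOrder (∑ φ ∈ Finset.univ.filter (· ∈ O), e ⟨i, φ⟩ • u ⟨i, φ⟩) := by
  classical
  have h4 : IsOfFinAddOrder (∑ w, e w • (u w - u (mv τ w))) := by
    have h5 := IsOfFin.map (act τ) he
    rw [map_sum] at h5
    have h6 : ∑ w, e w • (u w - u (mv τ w)) = ∑ w, e w • u w - ∑ w, act τ (e w • u w) := by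
      rw [← Finset.sum_sub_distrib]
      refine Finset.sum_congr rfl fun w _ => ?_
      rw [map_zsmul, hu.act, zsmul_sub]
    rw [h6, sub_eq_add_neg]
    exact (AddCommute.all _ _).isOfFinAddOrder_add he h5.neg
  have h5 : ∑ w, e w • (u w - u (mv τ w)) =
      (2 : ℤ) • ∑ φ ∈ Finset.univ.filter (· ∈ O), e ⟨i, φ⟩ • u ⟨i, φ⟩ := by
    rw [Fintype.sum_sigma, Finset.sum_eq_single i]
    · rw [Finset.sum_filter, ← Finset.sum_zsmul]
      refine Finset.sum_congr rfl fun φ _ => ?_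
      by_cases hφ : φ ∈ O
      · rw [if_pos hφ]
        have h6 : (mv τ ⟨i, φ⟩ : WW E) = cw ⟨i, φ⟩ := by
          exact congrArg (Sigma.mk i) (h1 φ hφ)
        rw [h6, hu.conj, sub_neg_eq_add, zsmul_add, two_zsmul]
      · rw [if_neg hφ, smul_zero]
        have h6 : (mv τ ⟨i, φ⟩ : WW E) = ⟨i, φ⟩ := congrArg (Sigma.mk i) (h2 φ hφ)
        rw [h6, sub_self, smul_zero]
    · intro j _ hji
      refine Finset.sum_eq_zero fun ψ _ => ?_
      by_cases h0 : e ⟨j, ψ⟩ = 0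
      · rw [h0, zero_smul]
      · rcases hsupp ⟨j, ψ⟩ h0 with h6 | h6
        · exact absurd h6 hji
        · have h7 : (mv τ ⟨j, ψ⟩ : WW E) = ⟨j, ψ⟩ := congrArg (Sigma.mk j) (h3 j h6 ψ)
          rw [h7, sub_self, smul_zero]
    · intro h
      exact absurd (Finset.mem_univ _) h
  rw [h5] at h4
  exact IsOfFin.zsmul_cancel two_ne_zero h4

/-- The exponents of a relation are symmetric on an isolated cycle, or the numbers are roots of
unity. -/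
theorem orbit_dichotomy {u : WW E → Additive ℂˣ} (hu : IsSystem u) {i : ι} {k : ℕ}
    {σ : ℂ ≃+* ℂ} {O : Set (E i →+* ℂ)} [DecidablePred (· ∈ O)]
    (h1 : ∀ φ ∈ O, ∀ ψ ∈ O, ∃ m < 2 ^ (k + 1), cmp (σ ^ m) φ = ψ)
    (h2 : ∀ φ ∈ O, ∀ m : ℕ, cmp (σ ^ m) φ ∈ O)
    (h3 : ∀ φ ∈ O, ∀ m : ℕ, cmp (σ ^ m) φ = φ ↔ 2 ^ (k + 1) ∣ m)
    (h4 : ∀ φ ∈ O, cmp (σ ^ 2 ^ k) φ = ComplexEmbedding.conjugate φ) {e : WW E → ℤ}
    (he : IsOfFinAddOrder (∑ φ ∈ Finset.univ.filter (· ∈ O), e ⟨i, φ⟩ • u ⟨i, φ⟩))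
    {φ₀ : E i →+* ℂ} (hφ₀ : φ₀ ∈ O) (hu0 : ¬ IsOfFinAddOrder (u ⟨i, φ₀⟩)) :
    e ⟨i, ComplexEmbedding.conjugate φ₀⟩ = e ⟨i, φ₀⟩ := by
  classical
  set N := 2 ^ k with hN
  have hN0 : 0 < N := by positivity
  have hN2 : 2 ^ (k + 1) = 2 * N := pow_succ' 2 k
  rw [hN2] at h1 h3
  set ph : ℕ → (E i →+* ℂ) := fun t => cmp (σ ^ t) φ₀ with hph
  have hinj : ∀ a b : ℕ, a < 2 * N → b < 2 * N → ph a = ph b → a = b := by
    have hlt : ∀ a b : ℕ, a < b → b < 2 * N → ph a ≠ ph b := by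
      intro a b hab hb heq
      have h5 : σ ^ b = σ ^ a * σ ^ (b - a) := by
        rw [← pow_add]
        congr 1
        omega
      have h6 : cmp (σ ^ (b - a)) φ₀ = φ₀ := by
        apply cmp_injective (σ ^ a)
        rw [← cmp_mul, ← h5]
        exact heq.symm
      have h7 := Nat.le_of_dvd (by omega) ((h3 φ₀ hφ₀ _).1 h6)
      omega
    intro a b ha hb heq
    rcases lt_trichotomy a b with h5 | h5 | h5
    · exact absurd heq (hlt a b h5 hb)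
    · exact h5
    · exact absurd heq.symm (hlt b a h5 ha)
  set F : ℤ[X] := ∑ t ∈ Finset.range (2 * N), monomial t (e ⟨i, ph t⟩) with hF
  have hcoeff : ∀ t, F.coeff t = if t < 2 * N then e ⟨i, ph t⟩ else 0 := by
    intro t
    rw [hF, finsetSum_coeff]
    simp only [coeff_monomial]
    rw [Finset.sum_ite_eq' (Finset.range (2 * N)) t (fun t => e ⟨i, ph t⟩)]
    simp only [Finset.mem_range]
  have hval : (aeval (act σ) F) (u ⟨i, φ₀⟩) =
      ∑ φ ∈ Finset.univ.filter (· ∈ O), e ⟨i, φ⟩ • u ⟨i, φ⟩ := by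
    rw [hF, map_sum, LinearMap.sum_apply]
    refine Finset.sum_bij (fun t _ => ph t) ?_ ?_ ?_ ?_
    · intro t _
      rw [Finset.mem_filter]
      exact ⟨Finset.mem_univ _, h2 φ₀ hφ₀ t⟩
    · intro a ha b hb heq
      exact hinj a b (Finset.mem_range.1 ha) (Finset.mem_range.1 hb) heq
    · intro φ hφ
      obtain ⟨m, hm, h⟩ := h1 φ₀ hφ₀ φ (Finset.mem_filter.1 hφ).2
      exact ⟨m, Finset.mem_range.2 hm, h⟩
    · intro t _
      rw [aeval_monomial, Module.End.mul_apply, hu.act_pow, Module.algebraMap_end_apply]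
  rw [← hval] at he
  by_cases hdvd : (X ^ 2 ^ k + 1 : ℤ[X]) ∣ F
  · have hdegF : F.natDegree < 2 * N := by
      have h5 : F.natDegree ≤ 2 * N - 1 := by
        rw [natDegree_le_iff_coeff_eq_zero]
        intro M hM
        rw [hcoeff, if_neg (by omega)]
      omega
    have h5 := coeff_of_dvd hN0 hdegF hdvd hN0
    rw [hcoeff, hcoeff, if_pos (by omega), if_pos (by omega), zero_add] at h5
    have h6 : ph N = ComplexEmbedding.conjugate φ₀ := h4 φ₀ hφ₀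
    have h7 : ph 0 = φ₀ := by
      rw [hph]
      simp only [pow_zero, cmp_one]
    rw [h6, h7] at h5
    exact h5
  · exfalso
    apply hu0
    refine torsion_of_rel (act σ) ?_ hdvd he
    rw [hu.act_pow, ← hN, h4 φ₀ hφ₀]
    exact hu.conj ⟨i, φ₀⟩

/-- Any two embeddings are conjugate. -/
theorem exists_conj {K : Type} [Field K] [NumberField K] (φ ψ : K →+* ℂ) :
    ∃ ρ : ℂ ≃+* ℂ, cmp ρ φ = ψ := by
  obtain ⟨L, _, _, j, hj⟩ := Pool.Agent.H204R3.CM.exists_galois (fun _ : Unit => K)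
  obtain ⟨φ', rfl⟩ := hj () φ
  obtain ⟨ψ', rfl⟩ := hj () ψ
  obtain ⟨g, hg⟩ := MulAction.exists_smul_eq (L ≃ₐ[ℚ] L) φ' ψ'
  obtain ⟨σ, hσ⟩ := Pool.Agent.H977R3.CM.exists_aut j (g : L ≃+* L)
  refine ⟨σ, RingHom.ext fun x => ?_⟩
  rw [← hg]
  exact hσ (φ' x)

/-- **Relations between the numbers that belong to a CM field with an isolated residue degree.** -/
theorem dichotomy {u : WW E → Additive ℂˣ} (hu : IsSystem u) {i : ι} {T : Set ι} {k ℓ : ℕ}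
    (hℓ : ℓ.Prime) (hi : IsIsolated ℓ k (E i)) (hT : ∀ j ∈ T, IsThin ℓ k (E j)) (hiT : i ∉ T) :
    (∀ e : WW E → ℤ, (∀ w, e w ≠ 0 → w.1 ∈ insert i T) → IsOfFinAddOrder (∑ w, e w • u w) →
      ∀ φ : E i →+* ℂ, e ⟨i, ComplexEmbedding.conjugate φ⟩ = e ⟨i, φ⟩) ∨
    ∀ φ : E i →+* ℂ, IsOfFinAddOrder (u ⟨i, φ⟩) := by
  classical
  obtain ⟨σ, M, O, hM, ⟨φ₁, hφ₁⟩, h1, h2, h3, h4, h5, h6⟩ := exists_sigma E i T hℓ hi hT
  -- the automorphism `σ ^ (2 ^ k M)`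
  have h7 : ∀ φ ∈ O, cmp (σ ^ (2 ^ k * M)) φ = ComplexEmbedding.conjugate φ := by
    obtain ⟨c, rfl⟩ := hM
    intro φ hφ
    have h8 : 2 ^ k * (2 * c + 1) = 2 ^ k + 2 ^ (k + 1) * c := by ring
    rw [h8, pow_add, cmp_mul, (h3 φ hφ _).2 (dvd_mul_right _ _), h4 φ hφ]
  by_cases htor : IsOfFinAddOrder (u ⟨i, φ₁⟩)
  · right
    intro φ
    obtain ⟨ρ, rfl⟩ := exists_conj φ₁ φ
    have h8 := IsOfFin.map (act ρ) htor
    rw [hu.act] at h8
    exact h8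
  · left
    intro e hsupp he φ
    obtain ⟨ρ, hρ⟩ := exists_conj φ φ₁
    -- the conjugate relation
    set e' : WW E → ℤ := fun w => e (mv ρ⁻¹ w) with he'
    have h8 : ∀ w, e' w ≠ 0 → w.1 ∈ insert i T := fun w hw => hsupp (mv ρ⁻¹ w) hw
    have h9 : IsOfFinAddOrder (∑ w, e' w • u w) := by
      have h10 := IsOfFin.map (act ρ) he
      rw [map_sum, ← Equiv.sum_comp (mvEquiv ρ⁻¹)] at h10
      have h12 : ∑ w, e' w • u w =
          ∑ w, act ρ (e (mvEquiv ρ⁻¹ w) • u (mvEquiv ρ⁻¹ w)) := by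
        refine Finset.sum_congr rfl fun w _ => ?_
        have h11 : mv ρ (mvEquiv ρ⁻¹ w) = w := mv_inv ρ w
        rw [map_zsmul, hu.act, h11]
        rfl
      rw [h12]
      exact h10
    have h10 := orbit_dichotomy hu h1 h2 h3 h4 (sum_orbit hu h7 h5 h6 h8 hiT h9) hφ₁ htor
    have h11 : mv ρ⁻¹ (⟨i, φ₁⟩ : WW E) = ⟨i, φ⟩ := by
      have h12 : (⟨i, φ₁⟩ : WW E) = mv ρ ⟨i, φ⟩ := congrArg (Sigma.mk i) hρ.symm
      rw [h12]
      exact mv_inv' ρ _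
    have h12 : mv ρ⁻¹ (⟨i, ComplexEmbedding.conjugate φ₁⟩ : WW E) =
        ⟨i, ComplexEmbedding.conjugate φ⟩ := by
      have h13 : (⟨i, ComplexEmbedding.conjugate φ₁⟩ : WW E) =
          mv ρ ⟨i, ComplexEmbedding.conjugate φ⟩ := by
        have h14 : cmp ρ (ComplexEmbedding.conjugate φ) = ComplexEmbedding.conjugate φ₁ := by
          rw [cmp_conj, hρ]
        exact congrArg (Sigma.mk i) h14.symm
      rw [h13]
      exact mv_inv' ρ _
    simp only [he'] at h10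
    rw [h11, h12] at h10
    exact h10

end Pool.Agent.T6.H22.DI
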